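import Mathlib

open Finset

namespace Pool.Agent.Helper350.VanSum

/-- `a` sums to zero against every faithful additive character. -/
def Van {G : Type*} [AddCommGroup G] [Fintype G] (a : G → ℂ) : Prop :=
  ∀ χ : AddChar G ℂ, (∀ x, χ x = 1 → x = 0) → ∑ g, a g * χ g = 0

/-- number of nonzero entries -/
noncomputable def sz {G : Type*} [Fintype G] (a : G → ℂ) : ℕ := by
  classical exact (univ.filter fun g => a g ≠ 0).card

lemma sz_pos {G : Type*} [Fintype G] {a : G → ℂ} (h : a ≠ 0) : 1 ≤ sz a := by
  classical
  obtain ⟨g, hg⟩ := Function.ne_iff.1 h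
  unfold sz
  apply Finset.card_pos.2
  exact ⟨g, by simpa using hg⟩

lemma eq_zero_of_sz {G : Type*} [Fintype G] {a : G → ℂ} (h : sz a = 0) : a = 0 := by
  by_contra h'
  have := sz_pos h'
  omega

lemma sz_sub_le {G : Type*} [Fintype G] (a b : G → ℂ) :
    sz (fun g => a g - b g) ≤ sz a + sz b := by
  classical
  unfold sz
  refine le_trans (Finset.card_le_card ?_) (Finset.card_union_le _ _)
  intro g hg
  simp only [mem_filter, mem_univ, true_and, mem_union] at hg ⊢
  by_contra hc
  push Not at hc
  apply hg
  rw [hc.1, hc.2]; simp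

lemma van_add {G : Type*} [AddCommGroup G] [Fintype G] {a b : G → ℂ} (ha : Van a) (hb : Van b) :
    Van (fun g => a g + b g) := by
  intro χ hχ
  simp only [add_mul, Finset.sum_add_distrib, ha χ hχ, hb χ hχ, add_zero]

lemma van_neg {G : Type*} [AddCommGroup G] [Fintype G] {a : G → ℂ} (ha : Van a) :
    Van (fun g => - a g) := by
  intro χ hχ
  simp only [neg_mul, Finset.sum_neg_distrib, ha χ hχ, neg_zero]

lemma van_zero {G : Type*} [AddCommGroup G] [Fintype G] : Van (fun _ : G => (0 : ℂ)) := by
  intro χ hχ
  simp

lemma fourier_inv {G : Type*} [AddCommGroup G] [Fintype G] (D : G → ℂ)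
    (h : ∀ χ : AddChar G ℂ, ∑ g, D g * χ g = 0) : D = 0 := by
  classical
  funext j
  have h1 : ∑ χ : AddChar G ℂ, χ (-j) * ∑ g, D g * χ g = 0 := by
    simp [h]
  have h2 : ∑ χ : AddChar G ℂ, χ (-j) * ∑ g, D g * χ g
      = ∑ g, D g * ∑ χ : AddChar G ℂ, χ (g - j) := by
    simp only [Finset.mul_sum]
    rw [Finset.sum_comm]
    refine Finset.sum_congr rfl fun g _ => Finset.sum_congr rfl fun χ _ => ?_
    rw [sub_eq_add_neg, AddChar.map_add_eq_mul]
    ring
  rw [h2] at h1
  simp only [AddChar.sum_apply_eq_ite, sub_eq_zero] at h1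
  simp only [mul_ite, mul_zero, Finset.sum_ite_eq', Finset.mem_univ, if_true] at h1
  have hc : (Fintype.card G : ℂ) ≠ 0 := Nat.cast_ne_zero.2 Fintype.card_ne_zero
  simpa [hc] using h1

/-- In `ZMod (q^e)` a character trivial at some nonzero point is trivial at `q^(e-1)`. -/
lemma triv_at_h {q e : ℕ} (hq : q.Prime) (he : 1 ≤ e) [NeZero (q ^ e)]
    (χ : AddChar (ZMod (q ^ e)) ℂ) (x : ZMod (q ^ e)) (hx : x ≠ 0) (h1 : χ x = 1) :
    χ ((q ^ (e - 1) : ℕ) : ZMod (q ^ e)) = 1 := by
  have hv0 : x.val ≠ 0 := by
    intro h
    exact hx ((ZMod.val_eq_zero x).1 h)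
  have hvlt : x.val < q ^ e := ZMod.val_lt x
  obtain ⟨k, hk, hgk⟩ := (Nat.dvd_prime_pow hq).1 (Nat.gcd_dvd_right x.val (q ^ e))
  have hke : k ≠ e := by
    intro h
    rw [h] at hgk
    have := Nat.gcd_dvd_left x.val (q ^ e)
    rw [hgk] at this
    exact absurd (Nat.le_of_dvd (Nat.pos_of_ne_zero hv0) this) (by omega)
  have hdvd : Nat.gcd x.val (q ^ e) ∣ q ^ (e - 1) := by
    rw [hgk]
    exact pow_dvd_pow q (by omega)
  obtain ⟨c, hc⟩ := hdvd
  have hb := Nat.gcd_eq_gcd_ab x.val (q ^ e)
  have hb2 : ((Nat.gcd x.val (q ^ e) : ℕ) : ZMod (q ^ e)) =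
      x * ((Nat.gcdA x.val (q ^ e) : ℤ) : ZMod (q ^ e)) := by
    have := congrArg (Int.cast : ℤ → ZMod (q ^ e)) hb
    push_cast at this
    rw [← Nat.cast_pow, ZMod.natCast_self] at this
    simpa using this
  have hh : ((q ^ (e - 1) : ℕ) : ZMod (q ^ e)) =
      ((((Nat.gcdA x.val (q ^ e) : ℤ) : ZMod (q ^ e)) * c).val) • x := by
    rw [hc, Nat.cast_mul, hb2, nsmul_eq_mul, ZMod.natCast_zmod_val]
    ring
  rw [hh, AddChar.map_nsmul_eq_pow, h1, one_pow]

section product

variable {q e B : ℕ} [NeZero (q ^ e)] [NeZero B]

/-- combine characters of the two factors -/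
noncomputable def combine (χ₁ : AddChar (ZMod (q ^ e)) ℂ) (χ₂ : AddChar (ZMod B) ℂ) :
    AddChar (ZMod (q ^ e) × ZMod B) ℂ where
  toFun x := χ₁ x.1 * χ₂ x.2
  map_zero_eq_one' := by simp
  map_add_eq_mul' := by
    intro x y
    simp only [Prod.fst_add, Prod.snd_add, AddChar.map_add_eq_mul]
    ring

omit [NeZero (q ^ e)] [NeZero B] in
lemma combine_inj (hcop : Nat.Coprime (q ^ e) B) (χ₁ : AddChar (ZMod (q ^ e)) ℂ)
    (χ₂ : AddChar (ZMod B) ℂ) (h₁ : ∀ x, χ₁ x = 1 → x = 0) (h₂ : ∀ x, χ₂ x = 1 → x = 0)
    (x : ZMod (q ^ e) × ZMod B) (hx : combine χ₁ χ₂ x = 1) : x = 0 := by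
  have hx' : χ₁ x.1 * χ₂ x.2 = 1 := hx
  have hA : χ₁ x.1 ^ (q ^ e) = 1 := by
    rw [← AddChar.map_nsmul_eq_pow]
    simp
  have hB : χ₂ x.2 ^ B = 1 := by
    rw [← AddChar.map_nsmul_eq_pow]
    simp
  have hA' : χ₁ x.1 ^ B = 1 := by
    have : (χ₁ x.1 * χ₂ x.2) ^ B = 1 := by rw [hx', one_pow]
    rw [mul_pow, hB, mul_one] at this
    exact this
  have h1 : χ₁ x.1 = 1 := by
    have h := pow_gcd_eq_one.2 ⟨hA, hA'⟩
    rw [Nat.coprime_iff_gcd_eq_one.1 hcop, pow_one] at h
    exact h
  have h2 : χ₂ x.2 = 1 := by rw [h1, one_mul] at hx'; exact hx'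
  exact Prod.ext (h₁ _ h1) (h₂ _ h2)

/-- the row of a two-variable function -/
def row (a : ZMod (q ^ e) × ZMod B → ℂ) (i : ZMod (q ^ e)) : ZMod B → ℂ := fun l => a (i, l)

lemma van_diff (hq : q.Prime) (he : 1 ≤ e) (hcop : Nat.Coprime (q ^ e) B)
    (a : ZMod (q ^ e) × ZMod B → ℂ) (ha : Van a) (i : ZMod (q ^ e)) :
    Van (fun l => row a (i + ((q ^ (e - 1) : ℕ) : ZMod (q ^ e))) l - row a i l) := by
  intro χ₂ h₂
  set h : ZMod (q ^ e) := ((q ^ (e - 1) : ℕ) : ZMod (q ^ e)) with hh
  set F : ZMod (q ^ e) → ℂ := fun i => ∑ l, a (i, l) * χ₂ l with hF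
  have key : (fun i => F (i + h) - F i) = 0 := by
    apply fourier_inv
    intro χ₁
    have shift : ∑ i, F (i + h) * χ₁ i = χ₁ (-h) * ∑ i, F i * χ₁ i := by
      rw [Finset.mul_sum]
      refine Fintype.sum_equiv (Equiv.addRight h) _ _ ?_
      intro i
      simp only [Equiv.coe_addRight]
      have : χ₁ i = χ₁ (-h) * χ₁ (i + h) := by
        rw [← AddChar.map_add_eq_mul]; congr 1; abel
      rw [this]; ring
    simp only [sub_mul, Finset.sum_sub_distrib, shift]
    by_cases h₁ : ∀ x, χ₁ x = 1 → x = 0
    · have h0 : ∑ i, F i * χ₁ i = 0 := by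
        have := ha (combine χ₁ χ₂) (combine_inj hcop χ₁ χ₂ h₁ h₂)
        rw [Fintype.sum_prod_type] at this
        rw [← this]
        refine Finset.sum_congr rfl fun i _ => ?_
        rw [hF, Finset.sum_mul]
        refine Finset.sum_congr rfl fun l _ => ?_
        show a (i, l) * χ₂ l * χ₁ i = a (i, l) * (χ₁ i * χ₂ l)
        ring
      rw [h0]; simp
    · push Not at h₁
      obtain ⟨x, hx1, hx0⟩ := h₁
      have ht := triv_at_h hq he χ₁ x hx0 hx1
      have ht' : χ₁ (-h) = 1 := by
        have : χ₁ (-h) * χ₁ h = 1 := by
          rw [← AddChar.map_add_eq_mul]; simp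
        rw [ht, mul_one] at this
        exact this
      rw [ht']; ring
  have := congrFun key i
  simp only [Pi.zero_apply, hF] at this
  rw [← Finset.sum_sub_distrib] at this
  rw [← this]
  refine Finset.sum_congr rfl fun l _ => ?_
  show (a (i + h, l) - a (i, l)) * χ₂ l = _
  ring

lemma van_diff_mul (hq : q.Prime) (he : 1 ≤ e) (hcop : Nat.Coprime (q ^ e) B)
    (a : ZMod (q ^ e) × ZMod B → ℂ) (ha : Van a) (i : ZMod (q ^ e)) (t : ℕ) :
    Van (fun l => row a (i + t * ((q ^ (e - 1) : ℕ) : ZMod (q ^ e))) l - row a i l) := by
  induction t with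
  | zero => simpa using (van_zero : Van (fun _ : ZMod B => (0:ℂ)))
  | succ t ih =>
    have h1 := van_diff hq he hcop a ha (i + t * ((q ^ (e - 1) : ℕ) : ZMod (q ^ e)))
    have h2 := van_add h1 ih
    have e1 : i + t * ((q ^ (e - 1) : ℕ) : ZMod (q ^ e)) + ((q ^ (e - 1) : ℕ) : ZMod (q ^ e))
        = i + ((t + 1 : ℕ) : ZMod (q ^ e)) * ((q ^ (e - 1) : ℕ) : ZMod (q ^ e)) := by
      push_cast; ring
    rw [e1] at h2
    simpa using h2

lemma van_of_row (hq : q.Prime) (he : 1 ≤ e) (hcop : Nat.Coprime (q ^ e) B)
    (a : ZMod (q ^ e) × ZMod B → ℂ) (ha : Van a) (i : ZMod (q ^ e)) (t : ℕ)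
    (h : Van (row a (i + t * ((q ^ (e - 1) : ℕ) : ZMod (q ^ e))))) : Van (row a i) := by
  have h1 := van_neg (van_diff_mul hq he hcop a ha i t)
  have h2 := van_add h1 h
  simpa using h2

/-- bound for the total size of one coset of rows -/
lemma coset_bound (hq : q.Prime) (he : 1 ≤ e) (hcop : Nat.Coprime (q ^ e) B)
    (a : ZMod (q ^ e) × ZMod B → ℂ) (ha : Van a) {p : ℕ} (hpq : p ≤ q)
    (hB : ∀ b : ZMod B → ℂ, b ≠ 0 → Van b → p ≤ sz b)
    (i : ZMod (q ^ e)) (hi : row a i ≠ 0) :
    p ≤ ∑ t ∈ range q, sz (row a (i + t * ((q ^ (e - 1) : ℕ) : ZMod (q ^ e)))) := by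
  by_cases hv : Van (row a i)
  · have h1 := hB _ hi hv
    have h0 : (0 : ℕ) ∈ range q := mem_range.2 hq.pos
    refine le_trans ?_ (Finset.single_le_sum (f := fun t : ℕ =>
      sz (row a (i + t * ((q ^ (e - 1) : ℕ) : ZMod (q ^ e))))) (fun _ _ => Nat.zero_le _) h0)
    simpa using h1
  · have h1 : ∀ t ∈ range q, 1 ≤ sz (row a (i + t * ((q ^ (e - 1) : ℕ) : ZMod (q ^ e)))) := by
      intro t _
      apply sz_pos
      intro h0
      apply hv
      apply van_of_row hq he hcop a ha i t
      rw [h0]
      exact van_zero
    calc p ≤ q := hpq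
      _ = ∑ t ∈ range q, 1 := by simp
      _ ≤ _ := Finset.sum_le_sum h1

/-- total size is the sum of row sizes -/
lemma sz_prod (a : ZMod (q ^ e) × ZMod B → ℂ) : sz a = ∑ i, sz (row a i) := by
  classical
  unfold sz row
  simp only [Finset.card_filter]
  rw [Fintype.sum_prod_type]

omit [NeZero (q ^ e)] in
/-- injectivity of the multiples of `h` -/
lemma mul_h_inj (hq : q.Prime) (he : 1 ≤ e) {s t : ℕ} (hs : s < q) (ht : t < q)
    (h : (s : ZMod (q ^ e)) * ((q ^ (e - 1) : ℕ) : ZMod (q ^ e)) =
      (t : ZMod (q ^ e)) * ((q ^ (e - 1) : ℕ) : ZMod (q ^ e))) : s = t := by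
  rw [← Nat.cast_mul, ← Nat.cast_mul, ZMod.natCast_eq_natCast_iff'] at h
  have hqe : q ^ e = q * q ^ (e - 1) := by
    rw [← pow_succ']
    congr 1
    omega
  have hpos : 0 < q ^ (e - 1) := pow_pos hq.pos _
  rw [Nat.mod_eq_of_lt, Nat.mod_eq_of_lt] at h
  · exact Nat.eq_of_mul_eq_mul_right hpos h
  · rw [hqe]; exact Nat.mul_lt_mul_of_pos_right ht hpos
  · rw [hqe]; exact Nat.mul_lt_mul_of_pos_right hs hpos

lemma sum_coset_le (hq : q.Prime) (he : 1 ≤ e) (f : ZMod (q ^ e) → ℕ) (i : ZMod (q ^ e)) :
    ∑ t ∈ range q, f (i + t * ((q ^ (e - 1) : ℕ) : ZMod (q ^ e))) ≤ ∑ j, f j := by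
  classical
  have hinj : Set.InjOn (fun t : ℕ => i + (t : ZMod (q ^ e)) * ((q ^ (e - 1) : ℕ) : ZMod (q ^ e)))
      (range q : Set ℕ) := by
    intro s hs t ht h
    have h' := add_left_cancel h
    exact mul_h_inj hq he (by simpa using hs) (by simpa using ht) h'
  rw [← Finset.sum_image (f := f) hinj]
  exact Finset.sum_le_sum_of_subset (Finset.subset_univ _)

end product


/-- transport along the Chinese remainder isomorphism -/
lemma van_crt {A B : ℕ} [NeZero A] [NeZero B] [NeZero (A * B)] (e : ZMod (A * B) ≃+ ZMod A × ZMod B)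
    (a : ZMod (A * B) → ℂ) (ha : Van a) : Van (fun x => a (e.symm x)) := by
  intro χ hχ
  have h := ha (χ.compAddMonoidHom e.toAddMonoidHom) (by
    intro x hx
    have := hχ (e x) hx
    simpa using this)
  rw [← h]
  symm
  refine Fintype.sum_equiv e.toEquiv _ _ ?_
  intro x
  simp

lemma sz_equiv {G H : Type*} [Fintype G] [Fintype H] (e : G ≃ H) (a : G → ℂ) :
    sz (fun x => a (e.symm x)) = sz a := by
  classical
  unfold sz
  simp only [Finset.card_filter]
  exact Fintype.sum_equiv e.symm _ _ (fun x => rfl)

/-- Every nonzero vanishing function on `ZMod M` has at least `p` nonzero entries if all prime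
factors of `M` are at least `p`. -/
theorem van_lower (M : ℕ) : ∀ [NeZero M] (p : ℕ), (∀ r : ℕ, r.Prime → r ∣ M → p ≤ r) →
    ∀ a : ZMod M → ℂ, a ≠ 0 → Van a → p ≤ sz a := by
  induction M using Nat.strong_induction_on with
  | _ M ih =>
    intro _ p hp a ha0 hv
    by_cases hM : M = 1
    · subst hM
      exfalso
      apply ha0
      funext j
      have h := hv 0 (by
        intro x _
        exact Subsingleton.elim _ _)
      rw [Fintype.sum_eq_single j (fun x hx => absurd (Subsingleton.elim x j) hx)] at h
      simpa using h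
    · set q := M.minFac with hqdef
      have hq : q.Prime := Nat.minFac_prime hM
      have hM0 : M ≠ 0 := NeZero.ne M
      have hqM : q ∣ M := Nat.minFac_dvd M
      obtain ⟨e, B, hB, hMeq⟩ := Nat.exists_eq_pow_mul_and_not_dvd hM0 q hq.ne_one
      have he : 1 ≤ e := by
        rcases Nat.eq_zero_or_pos e with h0 | h0
        · exfalso; apply hB; rw [h0, pow_zero, one_mul] at hMeq; rw [← hMeq]; exact hqM
        · exact h0
      have hB0 : B ≠ 0 := by
        intro h; rw [h] at hB; exact hB (dvd_zero _)
      have hcop : Nat.Coprime (q ^ e) B :=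
        Nat.Coprime.pow_left e ((Nat.Prime.coprime_iff_not_dvd hq).2 hB)
      have : NeZero B := ⟨hB0⟩
      have : NeZero (q ^ e) := ⟨(pow_pos hq.pos e).ne'⟩
      have hBlt : B < M := by
        rw [hMeq]
        have : 1 < q ^ e := Nat.one_lt_pow (by omega) hq.one_lt
        nlinarith [Nat.pos_of_ne_zero hB0]
      clear_value q
      subst hMeq
      let E := (ZMod.chineseRemainder hcop).toAddEquiv
      have hv' := van_crt E a hv
      have hsz := sz_equiv E.toEquiv a
      have ha' : (fun x => a (E.symm x)) ≠ 0 := by
        intro h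
        apply ha0
        funext x
        have := congrFun h (E x)
        simpa using this
      obtain ⟨⟨i, l⟩, hil⟩ := Function.ne_iff.1 ha'
      have hrow : row (fun x => a (E.symm x)) i ≠ 0 := by
        intro h
        exact hil (congrFun h l)
      have hb := coset_bound hq he hcop (fun x => a (E.symm x)) hv' (p := p) (hp q hq hqM)
        (fun b hb0 hbv => ih B hBlt p (fun r hr hrB => hp r hr (Dvd.dvd.mul_left hrB _)) b hb0 hbv)
        i hrow
      have h2 := sum_coset_le hq he (fun j => sz (row (fun x => a (E.symm x)) j)) i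
      rw [← sz_prod] at h2
      calc p ≤ _ := hb
        _ ≤ _ := h2
        _ = sz a := hsz

lemma sz_neg_arg {G : Type*} [AddCommGroup G] [Fintype G] (a : G → ℂ) :
    sz (fun x => a (-x)) = sz a := by
  classical
  unfold sz
  simp only [Finset.card_filter]
  exact Fintype.sum_equiv (Equiv.neg G) _ _ (fun x => rfl)

lemma two_unit {N : ℕ} (hN : Odd N) : IsUnit (2 : ZMod N) := by
  have h : Nat.Coprime 2 N := by
    rw [Nat.coprime_two_left]; exact hN
  have := (ZMod.unitOfCoprime 2 h).isUnit
  rwa [ZMod.coe_unitOfCoprime] at this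

lemma neg_eq_self_iff' {N : ℕ} (hN : Odd N) (x : ZMod N) (h : -x = x) : x = 0 := by
  have h2 : (2 : ZMod N) * x = 0 := by
    have : x + x = 0 := by
      nth_rewrite 1 [← h]
      simp
    rw [two_mul]; exact this
  exact (two_unit hN).mul_right_eq_zero.1 h2

lemma sum_pred_add (q : ℕ) (g : ℕ → ℕ) (hg : ∀ x, 1 ≤ g x) :
    ∑ x ∈ range q, g x = ∑ x ∈ range q, (g x - 1) + q := by
  have h1 : q = ∑ x ∈ range q, 1 := by simp
  conv_rhs => rw [h1]
  rw [Finset.sum_const, Finset.card_range, smul_eq_mul, mul_one]
  conv_rhs => rw [h1, Finset.sum_const, Finset.card_range, smul_eq_mul, mul_one]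
  have h2 : ∑ x ∈ range q, g x = ∑ x ∈ range q, ((g x - 1) + 1) :=
    Finset.sum_congr rfl fun x _ => by have := hg x; omega
  rw [h2, Finset.sum_add_distrib]
  simp

/-- Symmetric vanishing functions that are zero at the origin have at least `2 p` nonzero
entries. -/
theorem van_symm_lower (M : ℕ) : ∀ [NeZero M] (p : ℕ), Odd M →
    (∀ r : ℕ, r.Prime → r ∣ M → p ≤ r) →
    ∀ a : ZMod M → ℂ, a ≠ 0 → a 0 = 0 → (∀ j, a (-j) = a j) → Van a → 2 * p ≤ sz a := by
  induction M using Nat.strong_induction_on with
  | _ M ih =>
    intro _ p hodd hp a ha0 haz hsym hv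
    by_cases hM : M = 1
    · subst hM
      exfalso
      apply ha0
      funext j
      rw [Subsingleton.elim j 0, haz]
      rfl
    · set q := M.minFac with hqdef
      have hq : q.Prime := Nat.minFac_prime hM
      have hM0 : M ≠ 0 := NeZero.ne M
      have hqM : q ∣ M := Nat.minFac_dvd M
      obtain ⟨e, B, hB, hMeq⟩ := Nat.exists_eq_pow_mul_and_not_dvd hM0 q hq.ne_one
      have he : 1 ≤ e := by
        rcases Nat.eq_zero_or_pos e with h0 | h0
        · exfalso; apply hB; rw [h0, pow_zero, one_mul] at hMeq; rw [← hMeq]; exact hqM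
        · exact h0
      have hB0 : B ≠ 0 := by
        intro h; rw [h] at hB; exact hB (dvd_zero _)
      have hcop : Nat.Coprime (q ^ e) B :=
        Nat.Coprime.pow_left e ((Nat.Prime.coprime_iff_not_dvd hq).2 hB)
      have : NeZero B := ⟨hB0⟩
      have : NeZero (q ^ e) := ⟨(pow_pos hq.pos e).ne'⟩
      have hBlt : B < M := by
        rw [hMeq]
        have : 1 < q ^ e := Nat.one_lt_pow (by omega) hq.one_lt
        nlinarith [Nat.pos_of_ne_zero hB0]
      clear_value q
      subst hMeq
      have hAodd : Odd (q ^ e) := (Nat.odd_mul.1 hodd).1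
      have hBodd : Odd B := (Nat.odd_mul.1 hodd).2
      have hqodd : Odd q := by
        rcases hq.eq_two_or_odd' with h2 | h2
        · exfalso
          rw [h2] at hAodd
          have : Even (2 ^ e) := (Nat.even_pow.2 ⟨even_two, by omega⟩)
          exact (Nat.not_even_iff_odd.2 hAodd) this
        · exact h2
      have hpq : p ≤ q := hp q hq hqM
      have hpB : ∀ r : ℕ, r.Prime → r ∣ B → p ≤ r := fun r hr hrB =>
        hp r hr (Dvd.dvd.mul_left hrB _)
      let E := (ZMod.chineseRemainder hcop).toAddEquiv
      have hv' := van_crt E a hv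
      have hsz : sz (fun x => a (E.symm x)) = sz a := sz_equiv E.toEquiv a
      set a' : ZMod (q ^ e) × ZMod B → ℂ := fun x => a (E.symm x) with ha'def
      have ha' : a' ≠ 0 := by
        intro h
        apply ha0
        funext x
        have := congrFun h (E x)
        simpa [ha'def] using this
      have hsym' : ∀ x, a' (-x) = a' x := by
        intro x
        simp only [ha'def, map_neg, hsym]
      have haz' : a' (0, 0) = 0 := by
        have : E.symm (0, 0) = 0 := map_zero E.symm
        simp only [ha'def, this, haz]
      set h : ZMod (q ^ e) := ((q ^ (e - 1) : ℕ) : ZMod (q ^ e)) with hhdef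
      have hrowneg : ∀ i, row a' (-i) = fun l => row a' i (-l) := by
        intro i
        funext l
        have := hsym' (i, -l)
        simp only [Prod.neg_mk, neg_neg] at this
        exact this
      have hszneg : ∀ i, sz (row a' (-i)) = sz (row a' i) := by
        intro i
        rw [hrowneg i, sz_neg_arg]
      have hle2 : ∀ i j, i ≠ j → sz (row a' i) + sz (row a' j) ≤ sz a' := by
        intro i j hij
        rw [sz_prod]
        have := Finset.sum_le_sum_of_subset (f := fun i => sz (row a' i))
          (Finset.subset_univ ({i, j} : Finset (ZMod (q ^ e))))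
        rwa [Finset.sum_pair hij] at this
      have hle1 : ∀ i, sz (row a' i) ≤ sz a' := by
        intro i
        rw [sz_prod]
        exact Finset.single_le_sum (f := fun i => sz (row a' i)) (fun _ _ => Nat.zero_le _)
          (Finset.mem_univ i)
      rw [← hsz]
      obtain ⟨⟨i, l⟩, hil⟩ := Function.ne_iff.1 ha'
      have hrow : row a' i ≠ 0 := by
        intro h
        exact hil (congrFun h l)
      have hrow' : row a' (-i) ≠ 0 := by
        intro h0
        apply hrow
        apply eq_zero_of_sz
        rw [← hszneg, h0]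
        classical
        simp [sz]
      have hlowB := fun b hb0 hbv => van_lower B p hpB b hb0 hbv
      by_cases hiH : ∃ c : ℕ, i = c * h
      · obtain ⟨c, hc⟩ := hiH
        by_cases hr0 : row a' 0 = 0
        · -- row zero is empty
          have hvi : Van (row a' i) := by
            have h1 := van_diff_mul hq he hcop a' hv' 0 c
            rw [hr0] at h1
            simp only [Pi.zero_apply, sub_zero, zero_add] at h1
            rw [← hhdef, ← hc] at h1
            exact h1
          have h1 := hlowB _ hrow hvi
          have h2 := hszneg i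
          have hne : i ≠ -i := by
            intro h0
            have := neg_eq_self_iff' hAodd i h0.symm
            rw [this] at hrow
            exact hrow hr0
          have h3 := hle2 i (-i) hne
          omega
        · by_cases hv0 : Van (row a' 0)
          · have h1 := ih B hBlt p hBodd hpB (row a' 0) hr0 haz' (by
              intro l
              have := hsym' (0, l)
              simpa [row] using this) hv0
            exact le_trans h1 (hle1 0)
          · have hnv : ∀ t : ℕ, 1 ≤ sz (row a' (t * h)) := by
              intro t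
              apply sz_pos
              intro h0
              apply hv0
              apply van_of_row hq he hcop a' hv' 0 t
              rw [zero_add, ← hhdef, h0]
              exact van_zero
            have htot : ∑ t ∈ range q, sz (row a' (t * h)) ≤ sz a' := by
              have := sum_coset_le hq he (fun j => sz (row a' j)) 0
              rw [← sz_prod] at this
              simp only [zero_add] at this
              exact this
            by_cases hall : ∀ t < q, row a' (t * h) = row a' 0
            · have h2 : 2 ≤ sz (row a' 0) := by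
                classical
                obtain ⟨l, hl⟩ := Function.ne_iff.1 hr0
                have hl0 : l ≠ 0 := by
                  intro h0
                  rw [h0] at hl
                  exact hl haz'
                have hl1 : l ≠ -l := fun h0 => hl0 (neg_eq_self_iff' hBodd l h0.symm)
                unfold sz
                have hcard : ({l, -l} : Finset (ZMod B)).card = 2 := Finset.card_pair hl1
                rw [← hcard]
                apply Finset.card_le_card
                intro x hx
                simp only [Finset.mem_insert, Finset.mem_singleton] at hx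
                simp only [Finset.mem_filter, Finset.mem_univ, true_and]
                rcases hx with rfl | rfl
                · exact hl
                · have := congrFun (hrowneg 0) l
                  rw [neg_zero] at this
                  rw [← this]
                  exact hl
              have h3 : ∑ t ∈ range q, sz (row a' (t * h)) = q * sz (row a' 0) := by
                rw [Finset.sum_congr rfl (fun t ht => by rw [hall t (Finset.mem_range.1 ht)])]
                simp
              rw [h3] at htot
              nlinarith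
            · push Not at hall
              obtain ⟨t, htq, htne⟩ := hall
              have ht0 : t ≠ 0 := by
                rintro rfl
                apply htne
                simp
              have hdv := van_diff_mul hq he hcop a' hv' 0 t
              rw [zero_add, ← hhdef] at hdv
              have hdne : (fun l => row a' (t * h) l - row a' 0 l) ≠ 0 := by
                intro h0
                apply htne
                funext l
                have := congrFun h0 l
                simp only [Pi.zero_apply] at this
                exact sub_eq_zero.1 this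
              obtain ⟨p1, hp1, hp1q⟩ : ∃ p1 : ℕ, (∀ r : ℕ, r.Prime → r ∣ B → p1 ≤ r) ∧
                  2 * p + 2 ≤ p1 + q := by
                by_cases hB1 : B = 1
                · refine ⟨2 * p + 2, ?_, by omega⟩
                  intro r hr hrB
                  rw [hB1] at hrB
                  exact absurd hrB (hr.one_lt.ne' ∘ Nat.dvd_one.1)
                · refine ⟨B.minFac, fun r hr hrB => Nat.minFac_le_of_dvd hr.two_le hrB, ?_⟩
                  have hpr := Nat.minFac_prime hB1
                  have h1 : p ≤ B.minFac := hpB _ hpr (Nat.minFac_dvd B)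
                  have h2 : B.minFac ≠ q := by
                    intro h0
                    apply hB
                    rw [← h0]
                    exact Nat.minFac_dvd B
                  have h3 : Odd B.minFac := by
                    rcases hpr.eq_two_or_odd' with h4 | h4
                    · exfalso
                      have h5 := Nat.minFac_dvd B
                      rw [h4] at h5
                      exact (Nat.not_even_iff_odd.2 hBodd) (even_iff_two_dvd.2 h5)
                    · exact h4
                  obtain ⟨u, hu⟩ := h3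
                  obtain ⟨v, hv⟩ := hqodd
                  omega
              have hd := van_lower B p1 hp1 _ hdne hdv
              have hd2 := sz_sub_le (row a' (t * h)) (row a' 0)
              have hneg : sz (row a' (((q - t : ℕ) : ZMod (q ^ e)) * h)) = sz (row a' (t * h)) := by
                have hq0 : (q : ZMod (q ^ e)) * h = 0 := by
                  rw [hhdef, ← Nat.cast_mul, ← pow_succ', Nat.sub_add_cancel he]
                  exact ZMod.natCast_self _
                have : ((q - t : ℕ) : ZMod (q ^ e)) * h = -(t * h) := by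
                  rw [Nat.cast_sub htq.le, sub_mul, hq0, zero_sub]
                rw [this, hszneg]
              obtain ⟨v, hv⟩ := hqodd
              have hqt : q - t ≠ t := by omega
              have hsub : ({0, t, q - t} : Finset ℕ) ⊆ range q := by
                intro x hx
                simp only [Finset.mem_insert, Finset.mem_singleton] at hx
                rw [Finset.mem_range]
                omega
              have hs1 := Finset.sum_le_sum_of_subset
                (f := fun x : ℕ => sz (row a' (x * h)) - 1) hsub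
              have hs2 : ∑ x ∈ range q, sz (row a' (x * h)) =
                  ∑ x ∈ range q, (sz (row a' (x * h)) - 1) + q := by
                exact sum_pred_add q (fun x => sz (row a' (x * h))) hnv
              rw [Finset.sum_insert (by simp; omega), Finset.sum_insert (by simp; omega),
                Finset.sum_singleton] at hs1
              have hn0 := hnv 0
              have hnt := hnv t
              have hnq := hnv (q - t)
              simp only [Nat.cast_zero, zero_mul] at hs1 hn0
              rw [hneg] at hs1 hnq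
              omega
      · -- the cosets of `i` and `-i` are different
        have hdis : ∀ s t : ℕ, i + s * h ≠ -i + t * h := by
          intro s t hst
          apply hiH
          have h2 : (2 : ZMod (q ^ e)) * i = ((t : ZMod (q ^ e)) - s) * h := by
            have : i + i = t * h - s * h := by
              have h3 : i + s * h + i = t * h := by rw [hst]; abel
              rw [← h3]; abel
            rw [two_mul, this, sub_mul]
          obtain ⟨u, hu⟩ := two_unit hAodd
          refine ⟨((↑u⁻¹ : ZMod (q ^ e)) * (t - s)).val, ?_⟩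
          rw [ZMod.natCast_zmod_val, mul_assoc, ← h2, ← hu, ← mul_assoc]
          simp
        have hb1 := coset_bound hq he hcop a' hv' hpq hlowB i hrow
        have hb2 := coset_bound hq he hcop a' hv' hpq hlowB (-i) hrow'
        rw [← hhdef] at hb1 hb2
        classical
        have hinj : ∀ j : ZMod (q ^ e), Set.InjOn (fun t : ℕ => j + (t : ZMod (q ^ e)) * h)
            (range q : Set ℕ) := by
          intro j s hs t ht h0
          exact mul_h_inj hq he (by simpa using hs) (by simpa using ht) (add_left_cancel h0)
        have himg : ∀ j : ZMod (q ^ e), ∑ t ∈ range q, sz (row a' (j + t * h)) =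
            ∑ x ∈ (range q).image (fun t : ℕ => j + (t : ZMod (q ^ e)) * h), sz (row a' x) := by
          intro j
          rw [Finset.sum_image (hinj j)]
        rw [himg] at hb1 hb2
        have hdisj : Disjoint ((range q).image (fun t : ℕ => i + (t : ZMod (q ^ e)) * h))
            ((range q).image (fun t : ℕ => -i + (t : ZMod (q ^ e)) * h)) := by
          rw [Finset.disjoint_left]
          intro x hx hx'
          obtain ⟨s, _, hs⟩ := Finset.mem_image.1 hx
          obtain ⟨t, _, ht⟩ := Finset.mem_image.1 hx'
          exact hdis s t (hs.trans ht.symm)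
        have hfin := Finset.sum_le_sum_of_subset (f := fun x => sz (row a' x))
          (Finset.subset_univ (((range q).image (fun t : ℕ => i + (t : ZMod (q ^ e)) * h)) ∪
            ((range q).image (fun t : ℕ => -i + (t : ZMod (q ^ e)) * h))))
        rw [Finset.sum_union hdisj, ← sz_prod] at hfin
        omega

end Pool.Agent.Helper350.VanSum
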