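import Mathlib
import Pool.Agent.Helper350.VanSum

open Finset

namespace Pool.Agent.Helper350.CosSum

open Pool.Agent.Helper350.VanSum

/-- sum of the cosines `cos (pi k / M)` over a finite set -/
noncomputable def cs (M : ℕ) (K : Finset ℕ) : ℝ := ∑ k ∈ K, Real.cos (Real.pi * k / M)

lemma cos_refl {M k : ℕ} (hM : M ≠ 0) (hk : k ≤ M) :
    Real.cos (Real.pi * ((M - k : ℕ) : ℝ) / M) = - Real.cos (Real.pi * k / M) := by
  rw [Nat.cast_sub hk, mul_sub, sub_div, mul_div_assoc, div_self (Nat.cast_ne_zero.2 hM), mul_one,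
    Real.cos_pi_sub]

lemma cs_refl_zero {M : ℕ} (hM : M ≠ 0) (K : Finset ℕ) (hK : ∀ k ∈ K, k ≤ M ∧ M - k ∈ K) :
    cs M K = 0 := by
  have h : cs M K = - cs M K := by
    unfold cs
    rw [← Finset.sum_neg_distrib]
    refine Finset.sum_nbij' (fun k => M - k) (fun k => M - k) ?_ ?_ ?_ ?_ ?_
    · intro k hk; exact (hK k hk).2
    · intro k hk; exact (hK k hk).2
    · intro k hk; have := (hK k hk).1; omega
    · intro k hk; have := (hK k hk).1; omega
    · intro k hk
      rw [cos_refl hM (hK k hk).1]; ring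
  linarith

lemma cs_union {M : ℕ} {K L : Finset ℕ} (h : Disjoint K L) : cs M (K ∪ L) = cs M K + cs M L :=
  Finset.sum_union h

lemma cs_all {M : ℕ} (hM : M ≠ 0) : cs M (Icc 1 (M - 1)) = 0 := by
  apply cs_refl_zero hM
  intro k hk
  rw [Finset.mem_Icc] at *
  constructor
  · omega
  · omega

lemma cs_compl {M : ℕ} (hM : M ≠ 0) (K : Finset ℕ) (hK : K ⊆ Icc 1 (M - 1)) :
    cs M (Icc 1 (M - 1) \ K) = - cs M K := by
  have h := cs_all hM
  rw [← Finset.sdiff_union_of_subset hK, cs_union Finset.sdiff_disjoint] at h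
  linarith

/-- an odd set is not invariant under a fixed point free reflection -/
lemma exists_not_refl {M : ℕ} (hM : Odd M) (K : Finset ℕ) (hK : K ⊆ Icc 1 (M - 1))
    (hodd : Odd K.card) : ∃ k ∈ K, M - k ∉ K := by
  by_contra hcon
  push Not at hcon
  have h1 : ∏ k ∈ K, (-1 : ℤ) = 1 := by
    refine Finset.prod_involution (fun k _ => M - k) ?_ ?_ ?_ ?_
    · intro a ha; norm_num
    · intro a ha _ h0
      have := Finset.mem_Icc.1 (hK ha)
      obtain ⟨r, hr⟩ := hM
      omega
    · intro a ha; exact hcon a ha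
    · intro a ha
      have := Finset.mem_Icc.1 (hK ha)
      omega
  rw [Finset.prod_const, hodd.neg_one_pow] at h1
  norm_num at h1

lemma prim_of_faithful {M : ℕ} [NeZero M] (χ : AddChar (ZMod M) ℂ)
    (hχ : ∀ x, χ x = 1 → x = 0) : IsPrimitiveRoot (χ 1) M := by
  refine ⟨?_, ?_⟩
  · rw [← AddChar.map_nsmul_eq_pow]
    simp
  · intro l hl
    rw [← AddChar.map_nsmul_eq_pow] at hl
    have := hχ _ hl
    rw [nsmul_eq_mul, mul_one] at this
    exact (ZMod.natCast_eq_zero_iff l M).1 this

lemma neg_prim {M : ℕ} (hM : Odd M) {η : ℂ} (hη : IsPrimitiveRoot η M) :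
    IsPrimitiveRoot (-η) (2 * M) := by
  refine ⟨?_, ?_⟩
  · rw [pow_mul, neg_sq, ← pow_mul, mul_comm, pow_mul, hη.pow_eq_one, one_pow]
  · intro l hl
    have h1 : η ^ (2 * l) = 1 := by
      have : (-η) ^ (2 * l) = 1 := by rw [mul_comm, pow_mul, hl, one_pow]
      rwa [pow_mul, neg_sq, ← pow_mul] at this
    have h2 : M ∣ 2 * l := hη.dvd_of_pow_eq_one _ h1
    have h3 : M ∣ l := (Nat.Coprime.dvd_mul_left (Nat.coprime_comm.1
      ((Nat.coprime_two_left).2 hM))).1 h2
    have h4 : η ^ l = 1 := by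
      obtain ⟨c, hc⟩ := h3
      rw [hc, pow_mul, hη.pow_eq_one, one_pow]
    have h5 : Even l := by
      by_contra hodd
      rw [Nat.not_even_iff_odd] at hodd
      rw [neg_pow, hodd.neg_one_pow, h4] at hl
      norm_num at hl
    exact Nat.Coprime.mul_dvd_of_dvd_of_dvd ((Nat.coprime_two_left).2 hM)
      (even_iff_two_dvd.1 h5) h3

open Polynomial in
/-- Galois conjugation for sums of powers of roots of unity -/
lemma conj_sum {N : ℕ} (hN : 0 < N) (K : Finset ℕ) (g : ℕ → ℕ) {ζ ζ' : ℂ}
    (hζ : IsPrimitiveRoot ζ N) (hζ' : IsPrimitiveRoot ζ' N)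
    (h : ∑ k ∈ K, (ζ ^ k + ζ ^ (g k)) = 0) : ∑ k ∈ K, (ζ' ^ k + ζ' ^ (g k)) = 0 := by
  set f : ℤ[X] := ∑ k ∈ K, (X ^ k + X ^ (g k)) with hf
  have hev : ∀ z : ℂ, aeval z f = ∑ k ∈ K, (z ^ k + z ^ (g k)) := by
    intro z
    simp [hf]
  have h1 : aeval ζ f = 0 := by rw [hev, h]
  have h2 : cyclotomic N ℤ ∣ f := by
    rw [cyclotomic_eq_minpoly hζ hN]
    exact minpoly.isIntegrallyClosed_dvd (hζ.isIntegral hN) h1
  obtain ⟨c, hc⟩ := h2
  rw [← hev, hc, map_mul]
  have h3 : aeval ζ' (cyclotomic N ℤ) = 0 := by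
    rw [cyclotomic_eq_minpoly hζ' hN]
    exact minpoly.aeval _ _
  rw [h3, zero_mul]

/-- the cosine sum as a sum of powers of a root of unity -/
lemma cs_eq {M : ℕ} (hM : M ≠ 0) (K : Finset ℕ) (hK : ∀ k ∈ K, k ≤ M) :
    ∑ k ∈ K, (Complex.exp (2 * Real.pi * Complex.I / (2 * M : ℕ)) ^ k +
      Complex.exp (2 * Real.pi * Complex.I / (2 * M : ℕ)) ^ (2 * M - k)) = ((2 * cs M K : ℝ) : ℂ) := by
  have hM' : (M : ℂ) ≠ 0 := Nat.cast_ne_zero.2 hM
  unfold cs
  rw [Finset.mul_sum, Complex.ofReal_sum]
  refine Finset.sum_congr rfl fun k hk => ?_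
  have hk' := hK k hk
  have h1 : Complex.exp (2 * Real.pi * Complex.I / (2 * M : ℕ)) ^ k =
      Complex.exp ((Real.pi * k / M : ℝ) * Complex.I) := by
    rw [← Complex.exp_nat_mul]
    congr 1
    push_cast
    field_simp
  have h2 : Complex.exp (2 * Real.pi * Complex.I / (2 * M : ℕ)) ^ (2 * M - k) =
      Complex.exp (-(Real.pi * k / M : ℝ) * Complex.I) := by
    have h3 : Complex.exp (2 * Real.pi * Complex.I / (2 * M : ℕ)) ^ (2 * M) = 1 :=
      (Complex.isPrimitiveRoot_exp (2 * M) (by omega)).pow_eq_one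
    have h4 : Complex.exp (2 * Real.pi * Complex.I / (2 * M : ℕ)) ^ k *
        Complex.exp (2 * Real.pi * Complex.I / (2 * M : ℕ)) ^ (2 * M - k) = 1 := by
      rw [← pow_add, Nat.add_sub_cancel' (by omega), h3]
    rw [h1] at h4
    have h5 : Complex.exp ((Real.pi * k / M : ℝ) * Complex.I) *
        Complex.exp (-(Real.pi * k / M : ℝ) * Complex.I) = 1 := by
      rw [← Complex.exp_add]
      simp
    exact mul_left_cancel₀ (Complex.exp_ne_zero _) (h4.trans h5.symm)
  rw [h1, h2, Complex.ofReal_mul, Complex.ofReal_cos]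
  rw [Complex.cos]
  push_cast
  ring

theorem cs_ne_zero {M : ℕ} (hM : Odd M) (K : Finset ℕ) (hK : K ⊆ Icc 1 (M - 1))
    (hodd : Odd K.card) (hlt : K.card < M.minFac) : cs M K ≠ 0 := by
  intro h0
  have hM0 : M ≠ 0 := by rintro rfl; exact absurd hM (by decide)
  have : NeZero M := ⟨hM0⟩
  have hmem : ∀ k ∈ K, 1 ≤ k ∧ k ≤ M - 1 := fun k hk => Finset.mem_Icc.1 (hK hk)
  have hsum := cs_eq hM0 K (fun k hk => by have := hmem k hk; omega)
  rw [h0] at hsum
  simp only [mul_zero, Complex.ofReal_zero] at hsum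
  have hprim := Complex.isPrimitiveRoot_exp (2 * M) (by omega)
  classical
  set a : ZMod M → ℂ := fun j => ∑ k ∈ K, (-1) ^ k *
    ((if j = (k : ZMod M) then 1 else 0) + (if j = -(k : ZMod M) then 1 else 0)) with ha
  have hcast : ∀ k ∈ K, (k : ZMod M) ≠ 0 := by
    intro k hk h
    have h1 := (ZMod.natCast_eq_zero_iff k M).1 h
    have h2 := hmem k hk
    have := Nat.le_of_dvd (by omega) h1
    omega
  have haz : a 0 = 0 := by
    rw [ha]
    apply Finset.sum_eq_zero
    intro k hk
    have := hcast k hk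
    have h1 : ¬ (0 = (k : ZMod M)) := fun h => this h.symm
    have h2 : ¬ (0 = -(k : ZMod M)) := fun h => this (neg_eq_zero.1 h.symm)
    simp [h1, h2]
  have hasym : ∀ j, a (-j) = a j := by
    intro j
    rw [ha]
    refine Finset.sum_congr rfl fun k _ => ?_
    have e1 : (-j = (k : ZMod M)) ↔ (j = -(k : ZMod M)) := neg_eq_iff_eq_neg
    have e2 : (-j = -(k : ZMod M)) ↔ (j = (k : ZMod M)) := neg_inj
    simp only [e1, e2]
    ring
  have hv : Van a := by
    intro χ hχ
    have hη := prim_of_faithful χ hχ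
    have h1 := conj_sum (by omega) K (fun k => 2 * M - k) hprim (neg_prim hM hη) hsum
    rw [ha]
    have h2 : ∑ j, (∑ k ∈ K, (-1 : ℂ) ^ k * ((if j = (k : ZMod M) then 1 else 0) +
        (if j = -(k : ZMod M) then 1 else 0))) * χ j =
        ∑ k ∈ K, (-1 : ℂ) ^ k * (χ k + χ (-k)) := by
      simp only [Finset.sum_mul]
      rw [Finset.sum_comm]
      refine Finset.sum_congr rfl fun k _ => ?_
      simp only [mul_assoc, add_mul, ite_mul, one_mul, zero_mul]
      rw [← Finset.mul_sum, Finset.sum_add_distrib, Finset.sum_ite_eq', Finset.sum_ite_eq']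
      simp
    rw [h2, ← h1]
    refine Finset.sum_congr rfl fun k hk => ?_
    have hk' := hmem k hk
    have e1 : χ (k : ZMod M) = χ 1 ^ k := by
      rw [← AddChar.map_nsmul_eq_pow]; simp
    have e2 : χ (-(k : ZMod M)) = χ 1 ^ (2 * M - k) := by
      rw [← AddChar.map_nsmul_eq_pow, nsmul_eq_mul, mul_one, Nat.cast_sub (by omega)]
      simp
    rw [e1, e2, neg_pow (χ 1) k, neg_pow (χ 1) (2 * M - k)]
    have e3 : (-1 : ℂ) ^ (2 * M - k) = (-1) ^ k := by
      rcases Nat.even_or_odd k with hk2 | hk2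
      · rw [hk2.neg_one_pow, Even.neg_one_pow]
        exact (Nat.even_sub (by omega)).2 (iff_of_true (even_two_mul M) hk2)
      · rw [hk2.neg_one_pow, Odd.neg_one_pow]
        rw [Nat.odd_sub (by omega)]
        exact iff_of_false (by simp) (by simpa using hk2)
    rw [e3]
    ring
  obtain ⟨k0, hk0, hk0'⟩ := exists_not_refl hM K hK hodd
  have ha0 : a ≠ 0 := by
    intro h
    have h1 := congrFun h (k0 : ZMod M)
    have h2 : a (k0 : ZMod M) = (-1) ^ k0 := by
      rw [ha]
      simp only
      rw [Finset.sum_eq_single k0]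
      · have h3 : ¬ ((k0 : ZMod M) = -(k0 : ZMod M)) := by
          intro h4
          exact hcast k0 hk0 (neg_eq_self_iff' hM _ h4.symm)
        simp [h3]
      · intro k hk hne
        have hk1 := hmem k hk
        have hk2 := hmem k0 hk0
        have h3 : ¬ ((k0 : ZMod M) = (k : ZMod M)) := by
          intro h4
          rw [ZMod.natCast_eq_natCast_iff'] at h4
          rw [Nat.mod_eq_of_lt (by omega), Nat.mod_eq_of_lt (by omega)] at h4
          exact hne h4.symm
        have h5 : ¬ ((k0 : ZMod M) = -(k : ZMod M)) := by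
          intro h4
          have h6 : ((k0 + k : ℕ) : ZMod M) = 0 := by
            push_cast; rw [h4]; simp
          have h7 := (ZMod.natCast_eq_zero_iff _ _).1 h6
          obtain ⟨c, hc⟩ := h7
          have hc1 : c = 1 := by
            have hc2 : c < 2 := by
              by_contra hcc
              have : M * 2 ≤ M * c := Nat.mul_le_mul_left M (by omega)
              omega
            have hc3 : c ≠ 0 := by
              rintro rfl
              omega
            omega
          rw [hc1, mul_one] at hc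
          apply hk0'
          have : M - k0 = k := by omega
          rw [this]; exact hk
        simp [h3, h5]
      · intro h; exact absurd hk0 h
    rw [h2] at h1
    simp at h1
  have hsz : sz a ≤ 2 * K.card := by
    unfold sz
    calc _ ≤ ((K.image (fun k : ℕ => (k : ZMod M))) ∪ (K.image (fun k : ℕ => -(k : ZMod M)))).card := by
          apply Finset.card_le_card
          intro j hj
          simp only [Finset.mem_filter, Finset.mem_univ, true_and] at hj
          by_contra hcon
          apply hj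
          rw [ha]
          apply Finset.sum_eq_zero
          intro k hk
          simp only [Finset.mem_union, Finset.mem_image, not_or, not_exists, not_and] at hcon
          have h1 : ¬ (j = (k : ZMod M)) := fun h => hcon.1 k hk h.symm
          have h2 : ¬ (j = -(k : ZMod M)) := fun h => hcon.2 k hk h.symm
          simp [h1, h2]
      _ ≤ _ := Finset.card_union_le _ _
      _ ≤ K.card + K.card := Nat.add_le_add Finset.card_image_le Finset.card_image_le
      _ = 2 * K.card := by ring
  have hlow := van_symm_lower M M.minFac hM (fun r hr hrM => Nat.minFac_le_of_dvd hr.two_le hrM)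
    a ha0 haz hasym hv
  omega

/-- even cardinality: a reflection invariant set -/
lemma exists_even {M m : ℕ} (hm : Even m) (hmM : m < M) :
    ∃ K : Finset ℕ, K ⊆ Icc 1 (M - 1) ∧ K.card = m ∧ cs M K = 0 := by
  obtain ⟨r, hr⟩ := hm
  refine ⟨Icc 1 r ∪ Icc (M - r) (M - 1), ?_, ?_, ?_⟩
  · intro k hk
    rw [Finset.mem_union, Finset.mem_Icc, Finset.mem_Icc] at hk
    rw [Finset.mem_Icc]
    omega
  · rw [Finset.card_union_of_disjoint]
    · simp only [Nat.card_Icc]
      omega
    · rw [Finset.disjoint_left]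
      intro k hk hk'
      rw [Finset.mem_Icc] at hk hk'
      omega
  · apply cs_refl_zero (by omega)
    intro k hk
    rw [Finset.mem_union, Finset.mem_Icc, Finset.mem_Icc] at hk ⊢
    omega

/-- the folded index of the `p`-block -/
def fold (M c j : ℕ) : ℕ := if 1 + 2 * c * j < M then 1 + 2 * c * j else 2 * M - (1 + 2 * c * j)

lemma cos_fold {M c p j : ℕ} (hM : M = p * c) (hc : 1 ≤ c) (hj : j < p) :
    Real.cos (Real.pi * (fold M c j : ℕ) / M) = Real.cos (Real.pi / M + 2 * Real.pi / p * j) := by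
  have hp : 1 ≤ p := by omega
  have hM0 : (M : ℝ) ≠ 0 := by
    rw [hM]; push_cast
    have : (p : ℝ) ≠ 0 := by positivity
    have : (c : ℝ) ≠ 0 := by positivity
    positivity
  have hp0 : (p : ℝ) ≠ 0 := by positivity
  have hc0 : (c : ℝ) ≠ 0 := by positivity
  have hMr : (M : ℝ) = p * c := by rw [hM]; push_cast; ring
  have hang : Real.pi * ((1 + 2 * c * j : ℕ) : ℝ) / M = Real.pi / M + 2 * Real.pi / p * j := by
    rw [hMr]; push_cast
    field_simp
  unfold fold
  split_ifs with h
  · rw [hang]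
  · have hle : 1 + 2 * c * j ≤ 2 * M := by
      rw [hM]
      have : c * j + c ≤ p * c := by
        calc c * j + c = c * (j + 1) := by ring
          _ ≤ c * p := Nat.mul_le_mul_left c (by omega)
          _ = p * c := by ring
      have h2 : 2 * c * j = 2 * (c * j) := by ring
      omega
    rw [Nat.cast_sub hle]
    have h3 : Real.pi * (((2 * M : ℕ) : ℝ) - ((1 + 2 * c * j : ℕ) : ℝ)) / M =
        2 * Real.pi - Real.pi * ((1 + 2 * c * j : ℕ) : ℝ) / M := by
      push_cast
      field_simp
    rw [h3, Real.cos_two_pi_sub, hang]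

lemma cos_block_sum {p : ℕ} (hp : 2 ≤ p) (x : ℝ) :
    ∑ j ∈ range p, Real.cos (x + 2 * Real.pi / p * j) = 0 := by
  have hp0 : (p : ℂ) ≠ 0 := Nat.cast_ne_zero.2 (by omega)
  have hprim := Complex.isPrimitiveRoot_exp p (by omega)
  have hg := hprim.geom_sum_eq_zero (by omega)
  have h1 : ∑ j ∈ range p, Complex.exp (x * Complex.I) *
      Complex.exp (2 * Real.pi * Complex.I / p) ^ j = 0 := by
    rw [← Finset.mul_sum, hg, mul_zero]
  have h2 : ∀ j ∈ range p, Complex.exp (x * Complex.I) *
      Complex.exp (2 * Real.pi * Complex.I / p) ^ j =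
      Complex.exp (((x + 2 * Real.pi / p * j : ℝ) : ℂ) * Complex.I) := by
    intro j _
    rw [← Complex.exp_nat_mul, ← Complex.exp_add]
    congr 1
    push_cast
    ring
  rw [Finset.sum_congr rfl h2] at h1
  have h3 := congrArg Complex.re h1
  rw [Complex.re_sum] at h3
  simp only [Complex.exp_ofReal_mul_I_re, Complex.zero_re] at h3
  exact h3

/-- the block case -/
lemma exists_block {M m n p : ℕ} (hMn : M = m + n + 1) (hm : Odd m) (hn : Odd n) (hp : p.Prime)
    (hpM : p ∣ M) (hpm : p ≤ m) (hpn : p ≤ n) :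
    ∃ K : Finset ℕ, K ⊆ Icc 1 (M - 1) ∧ K.card = m ∧ cs M K = 0 := by
  obtain ⟨c, hc⟩ := hpM
  have hModd : Odd M := by
    rw [hMn]
    exact (hm.add_odd hn).add_one
  have hpodd : Odd p := (Nat.odd_mul.1 (hc ▸ hModd)).1
  have hcodd : Odd c := (Nat.odd_mul.1 (hc ▸ hModd)).2
  have hc3 : 3 ≤ c := by
    have h1 : p * 2 < p * c := by rw [← hc, hMn]; omega
    have h2 := Nat.lt_of_mul_lt_mul_left h1
    omega
  have hM0 : M ≠ 0 := by omega
  -- facts on the products
  have hcj : ∀ j < p, 2 * c * j + 2 * c ≤ 2 * M := by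
    intro j hj
    rw [hc]
    calc 2 * c * j + 2 * c = 2 * (c * (j + 1)) := by ring
      _ ≤ 2 * (c * p) := Nat.mul_le_mul_left 2 (Nat.mul_le_mul_left c (by omega))
      _ = 2 * (p * c) := by ring
  have hneM : ∀ j, 1 + 2 * c * j ≠ M := by
    intro j h
    have h1 : c ∣ 1 := by
      have h2 : c ∣ 1 + 2 * c * j := by rw [h, hc]; exact Dvd.intro_left p rfl
      have h3 : c ∣ 2 * c * j := ⟨2 * j, by ring⟩
      exact (Nat.dvd_add_left h3).1 h2
    have := Nat.le_of_dvd one_pos h1
    omega
  have hfoldmem : ∀ j < p, 1 ≤ fold M c j ∧ fold M c j ≤ M - 1 ∧ Odd (fold M c j) := by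
    intro j hj
    have h1 := hcj j hj
    have h2 := hneM j
    have h3 : Even (2 * c * j) := ⟨c * j, by ring⟩
    obtain ⟨w, hw⟩ := h3
    unfold fold
    split_ifs with h
    · refine ⟨by omega, by omega, ⟨w, by omega⟩⟩
    · refine ⟨by omega, by omega, ⟨M - w - 1, by omega⟩⟩
  have hinj : Set.InjOn (fold M c) (range p : Set ℕ) := by
    intro i hi j hj hij
    have hi' : i < p := by simpa using hi
    have hj' : j < p := by simpa using hj
    have h1 := hcj i hi'
    have h2 := hcj j hj'
    have hc2 : 0 < 2 * c := by omega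
    unfold fold at hij
    have key : ∀ i j : ℕ, i < p → j < p → 1 + 2 * c * i = 2 * M - (1 + 2 * c * j) → False := by
      intro i j hi hj h
      have h1 := hcj j hj
      have h3 : 2 + 2 * c * (i + j) = 2 * M := by
        have : 2 * c * (i + j) = 2 * c * i + 2 * c * j := by ring
        omega
      have h4 : c ∣ 2 := by
        have h5 : c ∣ 2 + 2 * c * (i + j) := by rw [h3, hc]; exact ⟨2 * p, by ring⟩
        have h6 : c ∣ 2 * c * (i + j) := ⟨2 * (i + j), by ring⟩
        exact (Nat.dvd_add_left h6).1 h5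
      have := Nat.le_of_dvd two_pos h4
      omega
    split_ifs at hij with ha hb hb
    · have : 2 * c * i = 2 * c * j := by omega
      exact Nat.eq_of_mul_eq_mul_left hc2 this
    · exact absurd hij (key i j hi' hj')
    · exact absurd hij.symm (key j i hj' hi')
    · have : 2 * c * i = 2 * c * j := by omega
      exact Nat.eq_of_mul_eq_mul_left hc2 this
  set B := (range p).image (fold M c) with hBdef
  have hBcard : B.card = p := by
    rw [hBdef, Finset.card_image_of_injOn hinj, Finset.card_range]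
  have hBmem : ∀ k ∈ B, 1 ≤ k ∧ k ≤ M - 1 ∧ Odd k := by
    intro k hk
    obtain ⟨j, hj, rfl⟩ := Finset.mem_image.1 hk
    exact hfoldmem j (Finset.mem_range.1 hj)
  have hBcs : cs M B = 0 := by
    unfold cs
    rw [hBdef, Finset.sum_image hinj]
    rw [Finset.sum_congr rfl (fun j hj => cos_fold hc (by omega) (Finset.mem_range.1 hj))]
    exact cos_block_sum hp.two_le _
  -- the odd numbers outside the block
  set O := (Icc 1 (M - 1)).filter (fun k => Odd k) with hO
  have hOcard : O.card = (m + n) / 2 := by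
    have : O = (range ((m + n) / 2)).image (fun t => 2 * t + 1) := by
      ext k
      simp only [hO, Finset.mem_filter, Finset.mem_Icc, Finset.mem_image, Finset.mem_range]
      obtain ⟨a, ha⟩ := hm
      obtain ⟨b, hb⟩ := hn
      constructor
      · rintro ⟨⟨h1, h2⟩, w, hw⟩
        exact ⟨w, by omega, by omega⟩
      · rintro ⟨w, hw, rfl⟩
        exact ⟨⟨by omega, by omega⟩, ⟨w, rfl⟩⟩
    rw [this, Finset.card_image_of_injective _ (fun a b h => by simpa using h), Finset.card_range]
  have hBO : B ⊆ O := by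
    intro k hk
    have := hBmem k hk
    rw [hO, Finset.mem_filter, Finset.mem_Icc]
    exact ⟨⟨this.1, this.2.1⟩, this.2.2⟩
  have hdiff : (m - p) / 2 ≤ (O \ B).card := by
    rw [Finset.card_sdiff_of_subset hBO, hOcard, hBcard]
    obtain ⟨a, ha⟩ := hm
    obtain ⟨b, hb⟩ := hn
    omega
  obtain ⟨T, hTsub, hTcard⟩ := Finset.exists_subset_card_eq hdiff
  have hTmem : ∀ k ∈ T, 1 ≤ k ∧ k ≤ M - 1 ∧ Odd k ∧ k ∉ B := by
    intro k hk
    have h1 := hTsub hk
    rw [Finset.mem_sdiff, hO, Finset.mem_filter, Finset.mem_Icc] at h1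
    exact ⟨h1.1.1.1, h1.1.1.2, h1.1.2, h1.2⟩
  set T' := T.image (fun k => M - k) with hT'
  have hT'card : T'.card = T.card := by
    apply Finset.card_image_of_injOn
    intro a ha b hb hab
    have h1 := hTmem a ha
    have h2 := hTmem b hb
    simp only at hab
    omega
  have hT'mem : ∀ k ∈ T', 1 ≤ k ∧ k ≤ M - 1 ∧ Even k ∧ M - k ∈ T := by
    intro k hk
    obtain ⟨t, ht, rfl⟩ := Finset.mem_image.1 hk
    obtain ⟨h1, h2, h3, h4⟩ := hTmem t ht
    refine ⟨by omega, by omega, ?_, ?_⟩
    · rw [Nat.even_sub (by omega)]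
      exact iff_of_false (by simpa using hModd) (by simpa using h3)
    · have : M - (M - t) = t := by omega
      rw [this]; exact ht
  have hTT' : Disjoint T T' := by
    rw [Finset.disjoint_left]
    intro k hk hk'
    have h1 := (hTmem k hk).2.2.1
    have h2 := (hT'mem k hk').2.2.1
    exact (Nat.not_even_iff_odd.2 h1) h2
  have hBT : Disjoint B (T ∪ T') := by
    rw [Finset.disjoint_left]
    intro k hk hk'
    rcases Finset.mem_union.1 hk' with h | h
    · exact (hTmem k h).2.2.2 hk
    · have h1 := (hBmem k hk).2.2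
      have h2 := (hT'mem k h).2.2.1
      exact (Nat.not_even_iff_odd.2 h1) h2
  refine ⟨B ∪ (T ∪ T'), ?_, ?_, ?_⟩
  · intro k hk
    rw [Finset.mem_Icc]
    rcases Finset.mem_union.1 hk with h | h
    · have := hBmem k h; exact ⟨this.1, this.2.1⟩
    · rcases Finset.mem_union.1 h with h | h
      · have := hTmem k h; exact ⟨this.1, this.2.1⟩
      · have := hT'mem k h; exact ⟨this.1, this.2.1⟩
  · rw [Finset.card_union_of_disjoint hBT, Finset.card_union_of_disjoint hTT', hT'card, hTcard,
      hBcard]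
    obtain ⟨a, ha⟩ := hm
    obtain ⟨b, hb⟩ := hpodd
    omega
  · rw [cs_union hBT, hBcs, zero_add]
    apply cs_refl_zero hM0
    intro k hk
    rcases Finset.mem_union.1 hk with h | h
    · have h1 := hTmem k h
      exact ⟨by omega, Finset.mem_union_right _ (Finset.mem_image.2 ⟨k, h, rfl⟩)⟩
    · have h1 := hT'mem k h
      exact ⟨by omega, Finset.mem_union_left _ h1.2.2.2⟩

/-- the arithmetic classification -/
theorem cs_main (m n : ℕ) (hm : 1 ≤ m) (hn : 1 ≤ n) :
    (∀ K : Finset ℕ, K ⊆ Icc 1 (m + n) → K.card = m → cs (m + n + 1) K ≠ 0) ↔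
      Odd m ∧ Odd n ∧ min m n < (m + n + 1).minFac := by
  set M := m + n + 1 with hM
  have hM1 : M - 1 = m + n := by omega
  have hM0 : M ≠ 0 := by omega
  constructor
  · intro h
    have hmo : Odd m := by
      by_contra hc
      rw [Nat.not_odd_iff_even] at hc
      obtain ⟨K, hK, hKc, hK0⟩ := exists_even hc (by omega : m < M)
      rw [hM1] at hK
      exact h K hK hKc hK0
    have hno : Odd n := by
      by_contra hc
      rw [Nat.not_odd_iff_even] at hc
      obtain ⟨K, hK, hKc, hK0⟩ := exists_even hc (by omega : n < M)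
      have h2 := cs_compl hM0 K hK
      rw [hK0, neg_zero] at h2
      refine h (Icc 1 (M - 1) \ K) ?_ ?_ h2
      · rw [← hM1]; exact Finset.sdiff_subset
      · rw [Finset.card_sdiff_of_subset hK, hKc, Nat.card_Icc]
        omega
    refine ⟨hmo, hno, ?_⟩
    by_contra hc
    push Not at hc
    have hp := Nat.minFac_prime (by omega : M ≠ 1)
    obtain ⟨K, hK, hKc, hK0⟩ := exists_block hM hmo hno hp (Nat.minFac_dvd M)
      (le_trans hc (min_le_left _ _)) (le_trans hc (min_le_right _ _))
    rw [hM1] at hK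
    exact h K hK hKc hK0
  · rintro ⟨hmo, hno, hlt⟩ K hK hKc
    have hModd : Odd M := by
      rw [hM]; exact (hmo.add_odd hno).add_one
    rw [← hM1] at hK
    rcases le_total m n with hmn | hmn
    · rw [min_eq_left hmn] at hlt
      exact cs_ne_zero hModd K hK (hKc ▸ hmo) (hKc ▸ hlt)
    · rw [min_eq_right hmn] at hlt
      have hcard : (Icc 1 (M - 1) \ K).card = n := by
        rw [Finset.card_sdiff_of_subset hK, hKc, Nat.card_Icc]
        omega
      have h1 := cs_ne_zero hModd (Icc 1 (M - 1) \ K) Finset.sdiff_subset (hcard ▸ hno)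
        (hcard ▸ hlt)
      rw [cs_compl hM0 K hK] at h1
      intro h0
      exact h1 (by rw [h0, neg_zero])

end Pool.Agent.Helper350.CosSum
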