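import Mathlib
import Pool.Agent.Helper350.CosSum

open Finset

namespace Pool.Agent.Helper350.HasseBox

open Pool.Agent.Helper350.CosSum

/-- Weakly decreasing sequences of length `m` with values in `0, ..., n`, ordered pointwise. -/
abbrev L (m n : ℕ) : Type := {f : Fin m → Fin (n + 1) // Antitone f}

variable {m n : ℕ}

/-- positions of the particles -/
def pos (f : L m n) (i : Fin m) : ℕ := (f.1 i : ℕ) + (m - i)

lemma pos_pos (f : L m n) (i : Fin m) : 1 ≤ pos f i := by
  have := i.2; unfold pos; omega

lemma pos_le (f : L m n) (i : Fin m) : pos f i ≤ m + n := by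
  have := i.2; have := (f.1 i).2; unfold pos; omega

lemma pos_strictAnti (f : L m n) : StrictAnti (pos f) := by
  intro i j hij
  have h1 := f.2 hij.le
  have h2 : (f.1 j : ℕ) ≤ f.1 i := h1
  have h3 : (i : ℕ) < j := hij
  have := j.2
  unfold pos
  omega

lemma pos_inj : Function.Injective (pos : L m n → Fin m → ℕ) := by
  intro f g h
  apply Subtype.ext
  funext i
  have := congrFun h i
  unfold pos at this
  apply Fin.ext
  omega

/-- the covering relation in terms of coordinates -/
lemma covBy_iff (f g : L m n) :
    f ⋖ g ↔ ∃ i, (g.1 i : ℕ) = f.1 i + 1 ∧ ∀ j, j ≠ i → g.1 j = f.1 j := by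
  constructor
  · intro h
    have hle : f.1 ≤ g.1 := h.le
    have hne : ∃ i, f.1 i < g.1 i := by
      by_contra hc
      push Not at hc
      apply h.lt.ne
      apply Subtype.ext
      funext i
      exact le_antisymm (hle i) (hc i)
    classical
    have hne' : (univ.filter fun i => f.1 i < g.1 i).Nonempty := by
      obtain ⟨i, hi⟩ := hne
      exact ⟨i, by simpa using hi⟩
    set i := (univ.filter fun i => f.1 i < g.1 i).min' hne' with hidef
    have hi : f.1 i < g.1 i := by
      have := Finset.min'_mem _ hne'
      rw [← hidef] at this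
      simpa using this
    have hmin : ∀ j, j < i → g.1 j = f.1 j := by
      intro j hj
      by_contra hc
      have hlt : f.1 j < g.1 j := lt_of_le_of_ne (hle j) (fun h => hc h.symm)
      have := Finset.min'_le (univ.filter fun i => f.1 i < g.1 i) j (by simpa using hlt)
      exact absurd hj (not_lt.2 this)
    have hlt : (f.1 i : ℕ) + 1 < n + 1 + 0 + 0 ∨ (f.1 i : ℕ) + 1 ≤ n := by
      right
      have h1 : (f.1 i : ℕ) < g.1 i := hi
      have h2 := (g.1 i).2
      omega
    have hle1 : (f.1 i : ℕ) + 1 < n + 1 := by
      have h1 : (f.1 i : ℕ) < g.1 i := hi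
      have h2 := (g.1 i).2
      omega
    have hanti : Antitone (Function.update f.1 i ⟨(f.1 i : ℕ) + 1, hle1⟩) := by
      intro a b hab
      rcases eq_or_ne a i with ha | ha <;> rcases eq_or_ne b i with hb | hb
      · rw [ha, hb]
      · rw [ha, Function.update_self, Function.update_of_ne hb]
        have h1 : f.1 b ≤ f.1 i := f.2 (ha ▸ hab)
        have h2 : (f.1 b : ℕ) ≤ f.1 i := h1
        show (f.1 b : ℕ) ≤ (f.1 i : ℕ) + 1
        omega
      · rw [hb, Function.update_self, Function.update_of_ne ha]
        have hlt : a < i := lt_of_le_of_ne (hb ▸ hab) ha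
        have h1 := hmin a hlt
        have h2 : g.1 i ≤ g.1 a := g.2 hlt.le
        have h3 : (g.1 i : ℕ) ≤ g.1 a := h2
        have h4 : (f.1 i : ℕ) < g.1 i := hi
        rw [h1] at h3
        show (f.1 i : ℕ) + 1 ≤ f.1 a
        omega
      · rw [Function.update_of_ne ha, Function.update_of_ne hb]
        exact f.2 hab
    set u : L m n := ⟨Function.update f.1 i ⟨(f.1 i : ℕ) + 1, hle1⟩, hanti⟩ with hu
    have hfu : f < u := by
      rw [← Subtype.coe_lt_coe, Pi.lt_def]
      refine ⟨fun j => ?_, i, ?_⟩
      · rcases eq_or_ne j i with hj | hj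
        · rw [hj, hu]; simp only [Function.update_self]
          show (f.1 i : ℕ) ≤ (f.1 i : ℕ) + 1
          omega
        · rw [hu]; simp only [Function.update_of_ne hj]; exact le_refl _
      · rw [hu]; simp only [Function.update_self]
        show (f.1 i : ℕ) < (f.1 i : ℕ) + 1
        omega
    have hug : u ≤ g := by
      intro j
      rcases eq_or_ne j i with hj | hj
      · rw [hj, hu]; simp only [Function.update_self]
        have h4 : (f.1 i : ℕ) < g.1 i := hi
        show (f.1 i : ℕ) + 1 ≤ g.1 i
        omega
      · rw [hu]; simp only [Function.update_of_ne hj]; exact hle j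
    have hgu : u = g := by
      by_contra hc
      exact h.2 hfu (lt_of_le_of_ne hug hc)
    refine ⟨i, ?_, ?_⟩
    · rw [← hgu, hu]; simp only [Function.update_self]
    · intro j hj
      rw [← hgu, hu]; simp only [Function.update_of_ne hj]
  · rintro ⟨i, hi, hj⟩
    refine ⟨?_, ?_⟩
    · rw [← Subtype.coe_lt_coe, Pi.lt_def]
      refine ⟨fun j => ?_, i, ?_⟩
      · rcases eq_or_ne j i with h | h
        · rw [h]; show (f.1 i : ℕ) ≤ g.1 i; omega
        · rw [hj j h]
      · show (f.1 i : ℕ) < g.1 i; omega
    · intro u hfu hug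
      have hfu' : f.1 ≤ u.1 := hfu.le
      have hug' : u.1 ≤ g.1 := hug.le
      have hj' : ∀ j, j ≠ i → u.1 j = f.1 j := by
        intro j h
        apply le_antisymm
        · rw [← hj j h]; exact hug' j
        · exact hfu' j
      have h1 : (f.1 i : ℕ) ≤ u.1 i := hfu' i
      have h2 : (u.1 i : ℕ) ≤ g.1 i := hug' i
      rcases Nat.lt_or_ge (f.1 i : ℕ) (u.1 i) with h3 | h3
      · apply hug.ne
        apply Subtype.ext
        funext j
        rcases eq_or_ne j i with h | h
        · rw [h]; apply Fin.ext; omega
        · rw [hj' j h, hj j h]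
      · apply hfu.ne
        apply Subtype.ext
        funext j
        rcases eq_or_ne j i with h | h
        · rw [h]; apply Fin.ext; omega
        · rw [hj' j h]

/-- real positions -/
noncomputable def X (f : L m n) : Fin m → ℝ := fun i => (pos f i : ℝ)

lemma X_inj : Function.Injective (X : L m n → Fin m → ℝ) := by
  intro f g h
  apply pos_inj
  funext i
  have := congrFun h i
  unfold X at this
  exact_mod_cast this

lemma covBy_iff_X (f g : L m n) :
    f ⋖ g ↔ ∃ i, X g = Function.update (X f) i (X f i + 1) := by
  rw [covBy_iff]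
  constructor
  · rintro ⟨i, hi, hj⟩
    refine ⟨i, ?_⟩
    funext j
    rcases eq_or_ne j i with h | h
    · rw [h, Function.update_self]
      unfold X pos
      rw [hi]
      push_cast
      ring
    · rw [Function.update_of_ne h]
      unfold X pos
      rw [hj j h]
  · rintro ⟨i, hi⟩
    refine ⟨i, ?_, ?_⟩
    · have := congrFun hi i
      rw [Function.update_self] at this
      unfold X at this
      have h2 : pos g i = pos f i + 1 := by exact_mod_cast this
      unfold pos at h2
      omega
    · intro j h
      have := congrFun hi j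
      rw [Function.update_of_ne h] at this
      unfold X at this
      have h2 : pos g j = pos f j := by exact_mod_cast this
      unfold pos at h2
      apply Fin.ext
      omega

/-- matrix entries of the determinant eigenfunctions -/
noncomputable def mat (k : L m n) (x : Fin m → ℝ) : Matrix (Fin m) (Fin m) ℝ :=
  Matrix.of fun a b => Real.sin (Real.pi * X k a / (m + n + 1 : ℕ) * x b)

noncomputable def F (k : L m n) (x : Fin m → ℝ) : ℝ := (mat k x).det

/-- the eigenvalue -/
noncomputable def eig (k : L m n) : ℝ :=
  ∑ a : Fin m, 2 * Real.cos (Real.pi * X k a / (m + n + 1 : ℕ))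

lemma F_shift (k : L m n) (x : Fin m → ℝ) :
    ∑ i, (F k (Function.update x i (x i + 1)) + F k (Function.update x i (x i - 1))) =
      eig k * F k x := by
  unfold F
  simp only [Matrix.det_apply]
  simp only [← Finset.sum_add_distrib, ← smul_add]
  rw [Finset.sum_comm, Finset.mul_sum]
  refine Finset.sum_congr rfl fun σ _ => ?_
  rw [← Finset.smul_sum, mul_smul_comm]
  congr 1
  have h1 : ∀ i : Fin m, ∏ b, mat k (Function.update x i (x i + 1)) (σ b) b +
      ∏ b, mat k (Function.update x i (x i - 1)) (σ b) b =
      2 * Real.cos (Real.pi * X k (σ i) / (m + n + 1 : ℕ)) * ∏ b, mat k x (σ b) b := by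
    intro i
    have h2 : ∀ v : ℝ, ∏ b, mat k (Function.update x i v) (σ b) b =
        Real.sin (Real.pi * X k (σ i) / (m + n + 1 : ℕ) * v) *
          ∏ b ∈ univ.erase i, mat k x (σ b) b := by
      intro v
      rw [← Finset.mul_prod_erase univ _ (Finset.mem_univ i)]
      congr 1
      · unfold mat; simp only [Matrix.of_apply, Function.update_self]
      · refine Finset.prod_congr rfl fun b hb => ?_
        unfold mat
        simp only [Matrix.of_apply, Function.update_of_ne (Finset.ne_of_mem_erase hb)]
    rw [h2, h2, ← Finset.mul_prod_erase univ (fun b => mat k x (σ b) b) (Finset.mem_univ i)]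
    have h3 : mat k x (σ i) i = Real.sin (Real.pi * X k (σ i) / (m + n + 1 : ℕ) * x i) := rfl
    rw [h3]
    set θ := Real.pi * X k (σ i) / (m + n + 1 : ℕ)
    have h4 : Real.sin (θ * (x i + 1)) + Real.sin (θ * (x i - 1)) =
        2 * Real.cos θ * Real.sin (θ * x i) := by
      rw [mul_add, mul_sub, mul_one, Real.sin_add, Real.sin_sub]; ring
    rw [← add_mul, h4]; ring
  rw [Finset.sum_congr rfl (fun i _ => h1 i), ← Finset.sum_mul]
  congr 1
  unfold eig
  exact Equiv.sum_comp σ (fun a => 2 * Real.cos (Real.pi * X k a / (m + n + 1 : ℕ)))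

lemma F_zero_col (k : L m n) (x : Fin m → ℝ) (i : Fin m)
    (h : ∀ a, Real.sin (Real.pi * X k a / (m + n + 1 : ℕ) * x i) = 0) : F k x = 0 := by
  unfold F
  exact Matrix.det_eq_zero_of_column_eq_zero i (fun a => h a)

lemma F_eq_col (k : L m n) (x : Fin m → ℝ) {i j : Fin m} (hij : i ≠ j) (h : x i = x j) :
    F k x = 0 := by
  unfold F
  apply Matrix.det_zero_of_column_eq hij
  intro a
  unfold mat
  simp only [Matrix.of_apply, h]

/-- invalid upward moves are killed -/
lemma F_up_zero (k f : L m n) (i : Fin m)
    (h : ¬ ∃ g : L m n, X g = Function.update (X f) i (X f i + 1)) :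
    F k (Function.update (X f) i (X f i + 1)) = 0 := by
  by_cases hi0 : (i : ℕ) = 0
  · by_cases hn : (f.1 i : ℕ) < n
    · exfalso
      apply h
      refine ⟨⟨Function.update f.1 i ⟨(f.1 i : ℕ) + 1, by omega⟩, ?_⟩, ?_⟩
      · intro a b hab
        rcases eq_or_ne a i with ha | ha <;> rcases eq_or_ne b i with hb | hb
        · rw [ha, hb]
        · rw [ha, Function.update_self, Function.update_of_ne hb]
          have h1 : f.1 b ≤ f.1 i := f.2 (ha ▸ hab)
          have h2 : (f.1 b : ℕ) ≤ f.1 i := h1
          show (f.1 b : ℕ) ≤ (f.1 i : ℕ) + 1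
          omega
        · exfalso
          apply ha
          apply Fin.ext
          have : (a : ℕ) ≤ b := hab
          rw [hb] at this
          omega
        · rw [Function.update_of_ne ha, Function.update_of_ne hb]
          exact f.2 hab
      · funext j
        unfold X pos
        rcases eq_or_ne j i with hj | hj
        · rw [hj]; simp only [Function.update_self]; push_cast; ring
        · simp only [Function.update_of_ne hj]
    · apply F_zero_col k _ i
      intro a
      rw [Function.update_self]
      have h1 : (f.1 i : ℕ) = n := by have := (f.1 i).2; omega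
      have h2 : X f i + 1 = ((m + n + 1 : ℕ) : ℝ) := by
        unfold X pos
        rw [h1, hi0]
        push_cast
        simp
        ring
      rw [h2, div_mul_cancel₀ _ (by positivity)]
      unfold X
      rw [mul_comm]
      exact Real.sin_nat_mul_pi _
  · have hi1 : (i : ℕ) - 1 < m := by have := i.2; omega
    set j : Fin m := ⟨(i : ℕ) - 1, hi1⟩ with hj
    have hji : j ≠ i := by
      intro h0
      have := congrArg Fin.val h0
      simp only [hj] at this
      omega
    have hjle : j ≤ i := by
      show (i : ℕ) - 1 ≤ i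
      omega
    have hfj : (f.1 i : ℕ) ≤ f.1 j := f.2 hjle
    by_cases hlt : (f.1 i : ℕ) < f.1 j
    · exfalso
      apply h
      have hjn := (f.1 j).2
      refine ⟨⟨Function.update f.1 i ⟨(f.1 i : ℕ) + 1, by omega⟩, ?_⟩, ?_⟩
      · intro a b hab
        rcases eq_or_ne a i with ha | ha <;> rcases eq_or_ne b i with hb | hb
        · rw [ha, hb]
        · rw [ha, Function.update_self, Function.update_of_ne hb]
          have h1 : f.1 b ≤ f.1 i := f.2 (ha ▸ hab)
          have h2 : (f.1 b : ℕ) ≤ f.1 i := h1
          show (f.1 b : ℕ) ≤ (f.1 i : ℕ) + 1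
          omega
        · rw [hb, Function.update_self, Function.update_of_ne ha]
          have haj : a ≤ j := by
            have h1 : (a : ℕ) ≤ b := hab
            rw [hb] at h1
            have h2 : (a : ℕ) ≠ i := fun h => ha (Fin.ext h)
            show (a : ℕ) ≤ (i : ℕ) - 1
            omega
          have h3 : (f.1 j : ℕ) ≤ f.1 a := f.2 haj
          show (f.1 i : ℕ) + 1 ≤ f.1 a
          omega
        · rw [Function.update_of_ne ha, Function.update_of_ne hb]
          exact f.2 hab
      · funext l
        unfold X pos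
        rcases eq_or_ne l i with hl | hl
        · rw [hl]; simp only [Function.update_self]; push_cast; ring
        · simp only [Function.update_of_ne hl]
    · apply F_eq_col k _ hji
      rw [Function.update_of_ne hji, Function.update_self]
      unfold X
      have : pos f j = pos f i + 1 := by
        unfold pos
        have h1 := i.2
        simp only [hj] at hfj hlt ⊢
        omega
      rw [this]
      push_cast
      ring

/-- invalid downward moves are killed -/
lemma F_down_zero (k f : L m n) (i : Fin m)
    (h : ¬ ∃ g : L m n, X g = Function.update (X f) i (X f i - 1)) :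
    F k (Function.update (X f) i (X f i - 1)) = 0 := by
  by_cases him : (i : ℕ) + 1 = m
  · by_cases hn : 0 < (f.1 i : ℕ)
    · exfalso
      apply h
      have hin := (f.1 i).2
      refine ⟨⟨Function.update f.1 i ⟨(f.1 i : ℕ) - 1, by omega⟩, ?_⟩, ?_⟩
      · intro a b hab
        rcases eq_or_ne a i with ha | ha <;> rcases eq_or_ne b i with hb | hb
        · rw [ha, hb]
        · exfalso
          apply hb
          apply Fin.ext
          have h1 : (a : ℕ) ≤ b := hab
          rw [ha] at h1
          have := b.2
          omega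
        · rw [hb, Function.update_self, Function.update_of_ne ha]
          have h1 : f.1 i ≤ f.1 a := f.2 (hb ▸ hab)
          have h2 : (f.1 i : ℕ) ≤ f.1 a := h1
          show (f.1 i : ℕ) - 1 ≤ f.1 a
          omega
        · rw [Function.update_of_ne ha, Function.update_of_ne hb]
          exact f.2 hab
      · funext j
        unfold X pos
        rcases eq_or_ne j i with hj | hj
        · rw [hj]; simp only [Function.update_self]
          rw [Nat.cast_add, Nat.cast_add, Nat.cast_sub (by omega)]
          push_cast; ring
        · simp only [Function.update_of_ne hj]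
    · apply F_zero_col k _ i
      intro a
      rw [Function.update_self]
      have h2 : X f i - 1 = 0 := by
        unfold X
        have : pos f i = 1 := by unfold pos; omega
        rw [this]; simp
      rw [h2, mul_zero, Real.sin_zero]
  · have hi1 : (i : ℕ) + 1 < m := by have := i.2; omega
    set j : Fin m := ⟨(i : ℕ) + 1, hi1⟩ with hj
    have hji : j ≠ i := by
      intro h0
      have := congrArg Fin.val h0
      simp only [hj] at this
      omega
    have hjle : i ≤ j := by
      show (i : ℕ) ≤ i + 1
      omega
    have hfj : (f.1 j : ℕ) ≤ f.1 i := f.2 hjle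
    by_cases hlt : (f.1 j : ℕ) < f.1 i
    · exfalso
      apply h
      have hin := (f.1 i).2
      refine ⟨⟨Function.update f.1 i ⟨(f.1 i : ℕ) - 1, by omega⟩, ?_⟩, ?_⟩
      · intro a b hab
        rcases eq_or_ne a i with ha | ha <;> rcases eq_or_ne b i with hb | hb
        · rw [ha, hb]
        · rw [ha, Function.update_self, Function.update_of_ne hb]
          have hjb : j ≤ b := by
            have h1 : (a : ℕ) ≤ b := hab
            rw [ha] at h1
            have h2 : (b : ℕ) ≠ i := fun h => hb (Fin.ext h)
            show (i : ℕ) + 1 ≤ b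
            omega
          have h3 : (f.1 b : ℕ) ≤ f.1 j := f.2 hjb
          show (f.1 b : ℕ) ≤ (f.1 i : ℕ) - 1
          omega
        · rw [hb, Function.update_self, Function.update_of_ne ha]
          have h1 : f.1 i ≤ f.1 a := f.2 (hb ▸ hab)
          have h2 : (f.1 i : ℕ) ≤ f.1 a := h1
          show (f.1 i : ℕ) - 1 ≤ f.1 a
          omega
        · rw [Function.update_of_ne ha, Function.update_of_ne hb]
          exact f.2 hab
      · funext l
        unfold X pos
        rcases eq_or_ne l i with hl | hl
        · rw [hl]; simp only [Function.update_self]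
          rw [Nat.cast_add, Nat.cast_add, Nat.cast_sub (by omega)]
          push_cast; ring
        · simp only [Function.update_of_ne hl]
    · apply F_eq_col k _ hji
      rw [Function.update_of_ne hji, Function.update_self]
      unfold X
      have : pos f i = pos f j + 1 := by
        unfold pos
        have h1 := i.2
        simp only [hj] at hfj hlt ⊢
        omega
      rw [this]
      push_cast
      ring

lemma update_up_inj {x : Fin m → ℝ} {i j : Fin m}
    (h : Function.update x i (x i + 1) = Function.update x j (x j + 1)) : i = j := by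
  by_contra hij
  have := congrFun h i
  rw [Function.update_self, Function.update_of_ne hij] at this
  linarith

lemma update_down_inj {x : Fin m → ℝ} {i j : Fin m}
    (h : Function.update x i (x i - 1) = Function.update x j (x j - 1)) : i = j := by
  by_contra hij
  have := congrFun h i
  rw [Function.update_self, Function.update_of_ne hij] at this
  linarith

lemma down_iff (f g : L m n) : (∃ i, X f = Function.update (X g) i (X g i + 1)) ↔
    ∃ i, X g = Function.update (X f) i (X f i - 1) := by
  constructor
  · rintro ⟨i, hi⟩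
    refine ⟨i, ?_⟩
    funext j
    have hj := congrFun hi j
    have hii := congrFun hi i
    rw [Function.update_self] at hii
    rcases eq_or_ne j i with h | h
    · rw [h, Function.update_self, hii]; ring
    · rw [Function.update_of_ne h] at hj ⊢
      exact hj.symm
  · rintro ⟨i, hi⟩
    refine ⟨i, ?_⟩
    funext j
    have hj := congrFun hi j
    have hii := congrFun hi i
    rw [Function.update_self] at hii
    rcases eq_or_ne j i with h | h
    · rw [h, Function.update_self, hii]; ring
    · rw [Function.update_of_ne h] at hj ⊢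
      exact hj.symm

section matrices

variable [Fintype (L m n)]

open Classical in
lemma sum_up (k f : L m n) :
    ∑ g : L m n, (if f ⋖ g then F k (X g) else 0) =
      ∑ i, F k (Function.update (X f) i (X f i + 1)) := by
  have h1 : ∀ g : L m n, (if f ⋖ g then F k (X g) else 0) =
      ∑ i, if X g = Function.update (X f) i (X f i + 1) then F k (X g) else 0 := by
    intro g
    split_ifs with hc
    · obtain ⟨i, hi⟩ := (covBy_iff_X f g).1 hc
      rw [Finset.sum_eq_single i]
      · rw [if_pos hi]
      · intro j _ hj
        rw [if_neg]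
        intro h
        exact hj (update_up_inj (h.symm.trans hi))
      · intro h; exact absurd (Finset.mem_univ i) h
    · symm
      apply Finset.sum_eq_zero
      intro i _
      rw [if_neg]
      intro h
      exact hc ((covBy_iff_X f g).2 ⟨i, h⟩)
  simp only [h1]
  rw [Finset.sum_comm]
  refine Finset.sum_congr rfl fun i _ => ?_
  by_cases hex : ∃ g : L m n, X g = Function.update (X f) i (X f i + 1)
  · obtain ⟨g, hg⟩ := hex
    rw [Finset.sum_eq_single g]
    · rw [if_pos hg, hg]
    · intro g' _ hne
      rw [if_neg]
      intro h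
      exact hne (X_inj (h.trans hg.symm))
    · intro h; exact absurd (Finset.mem_univ g) h
  · rw [F_up_zero k f i hex]
    apply Finset.sum_eq_zero
    intro g _
    rw [if_neg]
    intro h
    exact hex ⟨g, h⟩

open Classical in
lemma sum_down (k f : L m n) :
    ∑ g : L m n, (if g ⋖ f then F k (X g) else 0) =
      ∑ i, F k (Function.update (X f) i (X f i - 1)) := by
  have h1 : ∀ g : L m n, (if g ⋖ f then F k (X g) else 0) =
      ∑ i, if X g = Function.update (X f) i (X f i - 1) then F k (X g) else 0 := by
    intro g
    split_ifs with hc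
    · obtain ⟨i, hi⟩ := (down_iff f g).1 ((covBy_iff_X g f).1 hc)
      rw [Finset.sum_eq_single i]
      · rw [if_pos hi]
      · intro j _ hj
        rw [if_neg]
        intro h
        exact hj (update_down_inj (h.symm.trans hi))
      · intro h; exact absurd (Finset.mem_univ i) h
    · symm
      apply Finset.sum_eq_zero
      intro i _
      rw [if_neg]
      intro h
      exact hc ((covBy_iff_X g f).2 ((down_iff f g).2 ⟨i, h⟩))
  simp only [h1]
  rw [Finset.sum_comm]
  refine Finset.sum_congr rfl fun i _ => ?_
  by_cases hex : ∃ g : L m n, X g = Function.update (X f) i (X f i - 1)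
  · obtain ⟨g, hg⟩ := hex
    rw [Finset.sum_eq_single g]
    · rw [if_pos hg, hg]
    · intro g' _ hne
      rw [if_neg]
      intro h
      exact hne (X_inj (h.trans hg.symm))
    · intro h; exact absurd (Finset.mem_univ g) h
  · rw [F_down_zero k f i hex]
    apply Finset.sum_eq_zero
    intro g _
    rw [if_neg]
    intro h
    exact hex ⟨g, h⟩

/-- the matrix of the eigenfunctions -/
noncomputable def C (m n : ℕ) : Matrix (L m n) (L m n) ℝ := Matrix.of fun k f => F k (X f)

lemma C_mul (m n : ℕ) [Fintype (L m n)] [DecidableEq (L m n)]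
    [DecidableRel (SimpleGraph.hasse (L m n)).Adj] :
    C m n * (SimpleGraph.hasse (L m n)).adjMatrix ℝ = Matrix.diagonal eig * C m n := by
  classical
  ext k f
  rw [Matrix.mul_apply, Matrix.diagonal_mul]
  have h1 : ∀ g : L m n, C m n k g * (SimpleGraph.hasse (L m n)).adjMatrix ℝ g f =
      (if f ⋖ g then F k (X g) else 0) + (if g ⋖ f then F k (X g) else 0) := by
    intro g
    rw [SimpleGraph.adjMatrix_apply]
    show F k (X g) * _ = _
    by_cases h2 : f ⋖ g
    · have h3 : ¬ g ⋖ f := fun h => absurd h2.lt h.lt.asymm
      have h4 : (SimpleGraph.hasse (L m n)).Adj g f := SimpleGraph.hasse_adj.2 (Or.inr h2)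
      rw [if_pos h4, if_pos h2, if_neg h3]; ring
    · by_cases h3 : g ⋖ f
      · have h4 : (SimpleGraph.hasse (L m n)).Adj g f := SimpleGraph.hasse_adj.2 (Or.inl h3)
        rw [if_pos h4, if_neg h2, if_pos h3]; ring
      · have h4 : ¬ (SimpleGraph.hasse (L m n)).Adj g f := by
          rw [SimpleGraph.hasse_adj]
          rintro (h | h)
          · exact h3 h
          · exact h2 h
        rw [if_neg h4, if_neg h2, if_neg h3]; ring
  rw [Finset.sum_congr rfl (fun g _ => h1 g), Finset.sum_add_distrib, sum_up, sum_down,
    ← Finset.sum_add_distrib, F_shift]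
  rfl

end matrices

/-! ### The sine basis -/

/-- the sine vectors -/
noncomputable def s (N : ℕ) (k : Fin N) : Fin N → ℝ := fun j =>
  Real.sin (Real.pi * ((k : ℕ) + 1 : ℝ) / (N + 1 : ℕ) * ((j : ℕ) + 1 : ℝ))

/-- the path operator -/
noncomputable def P (N : ℕ) : (Fin N → ℝ) →ₗ[ℝ] (Fin N → ℝ) where
  toFun v j := (if h : (j : ℕ) + 1 < N then v ⟨j + 1, h⟩ else 0) +
    (if h : 0 < (j : ℕ) then v ⟨j - 1, by have := j.2; omega⟩ else 0)
  map_add' := by
    intro v w
    funext j
    simp only [Pi.add_apply]
    split_ifs <;> ring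
  map_smul' := by
    intro c v
    funext j
    simp only [Pi.smul_apply, smul_eq_mul, RingHom.id_apply]
    split_ifs <;> ring

lemma P_s (N : ℕ) (k : Fin N) :
    P N (s N k) = (2 * Real.cos (Real.pi * ((k : ℕ) + 1 : ℝ) / (N + 1 : ℕ))) • s N k := by
  funext j
  set θ := Real.pi * ((k : ℕ) + 1 : ℝ) / (N + 1 : ℕ) with hθ
  have h1 : (if h : (j : ℕ) + 1 < N then s N k ⟨j + 1, h⟩ else 0) =
      Real.sin (θ * ((j : ℕ) + 1 : ℝ) + θ) := by
    split_ifs with h
    · unfold s
      rw [← hθ]
      congr 1
      push_cast
      ring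
    · have hj : ((j : ℕ) : ℝ) + 1 = N := by
        have := j.2
        have h2 : (j : ℕ) + 1 = N := by omega
        exact_mod_cast h2
      have h3 : θ * ((j : ℕ) + 1 : ℝ) + θ = ((k + 1 : ℕ) : ℝ) * Real.pi := by
        rw [hj, hθ]
        push_cast
        have : (N : ℝ) + 1 ≠ 0 := by positivity
        field_simp
      rw [h3, Real.sin_nat_mul_pi]
  have h2 : (if h : 0 < (j : ℕ) then s N k ⟨j - 1, by have := j.2; omega⟩ else 0) =
      Real.sin (θ * ((j : ℕ) + 1 : ℝ) - θ) := by
    split_ifs with h
    · unfold s
      rw [← hθ]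
      congr 1
      simp only
      rw [Nat.cast_sub (by omega)]
      push_cast
      ring
    · have h3 : (j : ℕ) = 0 := by omega
      rw [h3]
      simp
  show (if h : (j : ℕ) + 1 < N then s N k ⟨j + 1, h⟩ else 0) +
    (if h : 0 < (j : ℕ) then s N k ⟨j - 1, by have := j.2; omega⟩ else 0) = _
  rw [h1, h2, Real.sin_add, Real.sin_sub]
  simp only [Pi.smul_apply, smul_eq_mul]
  unfold s
  rw [← hθ]
  ring

lemma s_ne_zero (N : ℕ) (k : Fin N) : s N k ≠ 0 := by
  intro h
  have hk := k.2
  have h1 := congrFun h ⟨0, by omega⟩
  unfold s at h1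
  simp only [Nat.cast_zero, zero_add, mul_one, Pi.zero_apply] at h1
  have h2 : 0 < Real.sin (Real.pi * ((k : ℕ) + 1 : ℝ) / (N + 1 : ℕ)) := by
    apply Real.sin_pos_of_pos_of_lt_pi
    · positivity
    · rw [div_lt_iff₀ (by positivity)]
      apply mul_lt_mul_of_pos_left _ Real.pi_pos
      have : (k : ℕ) + 1 < N + 1 := by omega
      exact_mod_cast this
  linarith

lemma eig_inj (N : ℕ) : Function.Injective
    (fun k : Fin N => 2 * Real.cos (Real.pi * ((k : ℕ) + 1 : ℝ) / (N + 1 : ℕ))) := by
  intro a b hab
  simp only at hab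
  have h1 := mul_left_cancel₀ two_ne_zero hab
  have hN : (0 : ℝ) < ((N + 1 : ℕ) : ℝ) := by positivity
  have hmem : ∀ k : Fin N, Real.pi * ((k : ℕ) + 1 : ℝ) / (N + 1 : ℕ) ∈ Set.Icc 0 Real.pi := by
    intro k
    constructor
    · positivity
    · rw [div_le_iff₀ hN]
      apply mul_le_mul_of_nonneg_left _ Real.pi_pos.le
      have := k.2
      have h2 : (k : ℕ) + 1 ≤ N + 1 := by omega
      exact_mod_cast h2
  have h2 := Real.injOn_cos (hmem a) (hmem b) h1
  rw [div_left_inj' hN.ne'] at h2
  have h3 := mul_left_cancel₀ Real.pi_ne_zero h2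
  have h4 : ((a : ℕ) : ℝ) = b := by linarith
  exact Fin.ext (by exact_mod_cast h4)

lemma s_indep (N : ℕ) : LinearIndependent ℝ (s N) := by
  apply Module.End.eigenvectors_linearIndependent' (P N) _ (eig_inj N)
  intro k
  rw [Module.End.hasEigenvector_iff, Module.End.mem_eigenspace_iff]
  exact ⟨P_s N k, s_ne_zero N k⟩

noncomputable def sBasis (N : ℕ) : Module.Basis (Fin N) ℝ (Fin N → ℝ) :=
  have : Nonempty (Fin N) ∨ IsEmpty (Fin N) := (isEmpty_or_nonempty _).symm
  Module.Basis.mk (s_indep N) (by
    rw [(s_indep N).span_eq_top_of_card_eq_finrank' (by simp)])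

lemma sBasis_apply (N : ℕ) (k : Fin N) : sBasis N k = s N k := by
  unfold sBasis
  simp

/-! ### Nonsingularity of the eigenfunction matrix -/

/-- particle positions as indices -/
def idx (f : L m n) (i : Fin m) : Fin (m + n) :=
  ⟨pos f i - 1, by have := pos_pos f i; have := pos_le f i; omega⟩

lemma idx_strictAnti (f : L m n) : StrictAnti (idx f) := by
  intro i j hij
  have h1 := pos_strictAnti f hij
  have h2 := pos_pos f j
  show pos f j - 1 < pos f i - 1
  omega

lemma idx_inj : Function.Injective (idx : L m n → Fin m → Fin (m + n)) := by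
  intro f g h
  apply pos_inj
  funext i
  have h1 := congrArg Fin.val (congrFun h i)
  unfold idx at h1
  simp only at h1
  have h2 := pos_pos f i
  have h3 := pos_pos g i
  omega

lemma idx_eq_of_subset {f g : L m n} (h : ∀ b, idx f b ∈ Set.range (idx g)) : f = g := by
  apply idx_inj
  have hf := (idx_strictAnti f).injective
  have hg := (idx_strictAnti g).injective
  classical
  have hrange : Set.range (idx f) = Set.range (idx g) := by
    apply Set.eq_of_subset_of_ncard_le
    · rintro _ ⟨b, rfl⟩; exact h b
    · rw [Set.ncard_range_of_injective hf, Set.ncard_range_of_injective hg]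
    · exact Set.finite_range _
  have h1 : StrictMono (fun i => OrderDual.toDual (idx f i)) := fun i j hij =>
    idx_strictAnti f hij
  have h2 : StrictMono (fun i => OrderDual.toDual (idx g i)) := fun i j hij =>
    idx_strictAnti g hij
  have h3 := (StrictMono.range_inj h1 h2).1 (by
    have e1 : Set.range (fun i => OrderDual.toDual (idx f i)) =
        OrderDual.toDual '' Set.range (idx f) := by rw [← Set.range_comp]; rfl
    have e2 : Set.range (fun i => OrderDual.toDual (idx g i)) =
        OrderDual.toDual '' Set.range (idx g) := by rw [← Set.range_comp]; rfl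
    rw [e1, e2, hrange])
  funext i
  have := congrFun h3 i
  exact OrderDual.toDual_inj.1 this

/-- strictly increasing functions grow at least linearly -/
lemma strictMono_add {k : ℕ} {e : Fin k → ℕ} (he : StrictMono e) :
    ∀ d : ℕ, ∀ i j : Fin k, (j : ℕ) = i + d → e i + d ≤ e j := by
  intro d
  induction d with
  | zero =>
    intro i j h
    have : i = j := Fin.ext (by omega)
    rw [this]; simp
  | succ d ih =>
    intro i j h
    have hj := j.2
    have h1 := ih i ⟨i + d, by omega⟩ rfl
    have h2 : e ⟨i + d, by omega⟩ < e j := he (by show (i : ℕ) + d < j; omega)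
    omega

/-- every `m`-subset of `1, ..., m + n` is the set of positions of a partition -/
lemma exists_pos_image (K : Finset ℕ) (hK : K ⊆ Icc 1 (m + n)) (hc : K.card = m) :
    ∃ f : L m n, univ.image (pos f) = K := by
  classical
  set e := K.orderEmbOfFin hc with he
  have hem : StrictMono e := e.strictMono
  have hmem : ∀ i, 1 ≤ e i ∧ e i ≤ m + n := fun i =>
    Finset.mem_Icc.1 (hK (K.orderEmbOfFin_mem hc i))
  have hlow : ∀ i : Fin m, (i : ℕ) + 1 ≤ e i := by
    intro i
    have h0 : 0 < m := by have := i.2; omega
    have h1 := strictMono_add hem i ⟨0, h0⟩ i (by simp)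
    have h2 := (hmem ⟨0, h0⟩).1
    omega
  have hup : ∀ i : Fin m, e i ≤ n + i + 1 := by
    intro i
    have hi := i.2
    have h1 := strictMono_add hem (m - 1 - i) i ⟨m - 1, by omega⟩ (by simp; omega)
    have h2 := (hmem ⟨m - 1, by omega⟩).2
    omega
  have hrev : ∀ i : Fin m, ((Fin.rev i : Fin m) : ℕ) = m - 1 - i := by
    intro i
    rw [Fin.val_rev]
    omega
  refine ⟨⟨fun i => ⟨e (Fin.rev i) - (m - i), ?_⟩, ?_⟩, ?_⟩
  · have h1 := hup (Fin.rev i)
    rw [hrev] at h1
    have := i.2
    omega
  · intro i j hij
    have hij' : (i : ℕ) ≤ j := hij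
    have hj := j.2
    have h1 := strictMono_add hem (j - i) (Fin.rev j) (Fin.rev i) (by
      rw [hrev, hrev]; omega)
    show e (Fin.rev j) - (m - j) ≤ e (Fin.rev i) - (m - i)
    have h2 := hlow (Fin.rev j)
    rw [hrev] at h2
    omega
  · have hpos : ∀ i : Fin m, pos (⟨fun i => ⟨e (Fin.rev i) - (m - i), by
        have h1 := hup (Fin.rev i)
        rw [hrev] at h1
        have := i.2
        omega⟩, by
        intro i j hij
        have hij' : (i : ℕ) ≤ j := hij
        have hj := j.2
        have h1 := strictMono_add hem (j - i) (Fin.rev j) (Fin.rev i) (by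
          rw [hrev, hrev]; omega)
        show e (Fin.rev j) - (m - j) ≤ e (Fin.rev i) - (m - i)
        have h2 := hlow (Fin.rev j)
        rw [hrev] at h2
        omega⟩ : L m n) i = e (Fin.rev i) := by
      intro i
      unfold pos
      simp only
      have h2 := hlow (Fin.rev i)
      rw [hrev] at h2
      have := i.2
      omega
    ext x
    simp only [Finset.mem_image, Finset.mem_univ, true_and, hpos]
    constructor
    · rintro ⟨i, rfl⟩
      exact K.orderEmbOfFin_mem hc _
    · intro hx
      have : x ∈ Set.range e := by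
        rw [he, Finset.range_orderEmbOfFin]; exact hx
      obtain ⟨i, hi⟩ := this
      exact ⟨Fin.rev i, by rw [Fin.rev_rev]; exact hi⟩

/-- every injective tuple of indices is a permuted position tuple -/
lemma exists_perm (v : Fin m → Fin (m + n)) (hv : Function.Injective v) :
    ∃ (f : L m n) (σ : Equiv.Perm (Fin m)), v = idx f ∘ σ := by
  classical
  obtain ⟨f, hf⟩ := exists_pos_image (m := m) (n := n) (univ.image fun i => (v i : ℕ) + 1) (by
    intro x hx
    obtain ⟨i, _, rfl⟩ := Finset.mem_image.1 hx
    have := (v i).2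
    rw [Finset.mem_Icc]
    omega) (by
    rw [Finset.card_image_of_injective, Finset.card_univ, Fintype.card_fin]
    intro a b hab
    apply hv
    apply Fin.ext
    simpa using hab)
  have hex : ∀ i, ∃ j, idx f j = v i := by
    intro i
    have : (v i : ℕ) + 1 ∈ univ.image (pos f) := by
      rw [hf]
      exact Finset.mem_image.2 ⟨i, Finset.mem_univ _, rfl⟩
    obtain ⟨j, _, hj⟩ := Finset.mem_image.1 this
    refine ⟨j, ?_⟩
    apply Fin.ext
    show pos f j - 1 = v i
    omega
  choose τ hτ using hex
  have hτinj : Function.Injective τ := by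
    intro a b hab
    apply hv
    rw [← hτ a, ← hτ b, hab]
  refine ⟨f, Equiv.ofBijective τ (Finite.injective_iff_bijective.1 hτinj), ?_⟩
  funext i
  exact (hτ i).symm

lemma X_idx (f : L m n) (i : Fin m) : X f i = ((idx f i : ℕ) : ℝ) + 1 := by
  unfold X idx
  simp only
  have := pos_pos f i
  rw [Nat.cast_sub this]
  push_cast
  ring

lemma F_idx (k f : L m n) :
    F k (X f) = Matrix.det (Matrix.of fun a b => s (m + n) (idx k a) (idx f b)) := by
  unfold F mat s
  congr 1
  ext a b
  simp only [Matrix.of_apply, X_idx]

/-- the alternating map attached to a coefficient vector -/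
noncomputable def altMap [Fintype (L m n)] (ψ : L m n → ℝ) :
    (Fin (m + n) → ℝ) [⋀^Fin m]→ₗ[ℝ] ℝ :=
  ∑ f : L m n, ψ f • (Matrix.detRowAlternating (R := ℝ) (n := Fin m)).compLinearMap
    (LinearMap.funLeft ℝ ℝ (idx f))

lemma altMap_apply [Fintype (L m n)] (ψ : L m n → ℝ) (v : Fin m → Fin (m + n) → ℝ) :
    altMap ψ v = ∑ f : L m n, ψ f * Matrix.det (Matrix.of fun a b => v a (idx f b)) := by
  let ev : ((Fin (m + n) → ℝ) [⋀^Fin m]→ₗ[ℝ] ℝ) →+ ℝ :=
    { toFun := fun g => g v
      map_zero' := rfl
      map_add' := fun _ _ => rfl }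
  show ev (altMap ψ) = _
  unfold altMap
  rw [map_sum]
  rfl

lemma altMap_single [Fintype (L m n)] (ψ : L m n → ℝ) (g : L m n) :
    altMap ψ (fun a => Pi.single (idx g a) 1) = ψ g := by
  classical
  rw [altMap_apply, Finset.sum_eq_single g]
  · have : (Matrix.of fun a b => (Pi.single (idx g a) (1 : ℝ) : Fin (m + n) → ℝ) (idx g b)) =
        (1 : Matrix (Fin m) (Fin m) ℝ) := by
      ext a b
      rw [Matrix.of_apply, Matrix.one_apply, Pi.single_apply]
      have hinj := (idx_strictAnti g).injective
      by_cases h : a = b
      · rw [h]; simp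
      · rw [if_neg h, if_neg]
        intro h2
        exact h (hinj h2.symm)
    rw [this, Matrix.det_one, mul_one]
  · intro f _ hfg
    have : ∃ b, idx f b ∉ Set.range (idx g) := by
      by_contra hc
      push Not at hc
      exact hfg (idx_eq_of_subset hc)
    obtain ⟨b, hb⟩ := this
    rw [Matrix.det_eq_zero_of_column_eq_zero b, mul_zero]
    intro a
    rw [Matrix.of_apply, Pi.single_apply, if_neg]
    intro h
    exact hb ⟨a, h.symm⟩
  · intro h; exact absurd (Finset.mem_univ g) h

lemma det_C_ne_zero (m n : ℕ) [Fintype (L m n)] [DecidableEq (L m n)] : (C m n).det ≠ 0 := by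
  classical
  intro hdet
  obtain ⟨ψ, hψ0, hψ⟩ := Matrix.exists_mulVec_eq_zero_iff.2 hdet
  apply hψ0
  have halt : altMap ψ = 0 := by
    apply Module.Basis.ext_alternating (sBasis (m + n))
    intro v hv
    obtain ⟨k, σ, rfl⟩ := exists_perm v hv
    have h1 : (fun i => sBasis (m + n) ((idx k ∘ σ) i)) =
        (fun i => s (m + n) (idx k i)) ∘ σ := by
      funext i
      rw [sBasis_apply]
      rfl
    rw [h1, AlternatingMap.map_perm]
    have h2 : altMap ψ (fun i => s (m + n) (idx k i)) = 0 := by
      rw [altMap_apply]
      have := congrFun hψ k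
      rw [Matrix.mulVec, dotProduct, Pi.zero_apply] at this
      rw [← this]
      refine Finset.sum_congr rfl fun f _ => ?_
      show ψ f * _ = F k (X f) * ψ f
      rw [F_idx]
      ring
    rw [h2]
    simp
  funext g
  rw [← altMap_single ψ g, halt]
  rfl

theorem det_hasse (m n : ℕ) [Fintype (L m n)] [DecidableEq (L m n)]
    [DecidableRel (SimpleGraph.hasse (L m n)).Adj] :
    ((SimpleGraph.hasse (L m n)).adjMatrix ℝ).det = ∏ k : L m n, eig k := by
  have h1 := congrArg Matrix.det (C_mul m n)
  rw [Matrix.det_mul, Matrix.det_mul, Matrix.det_diagonal, mul_comm] at h1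
  exact mul_right_cancel₀ (det_C_ne_zero m n) h1

lemma eig_eq (k : L m n) : eig k = 2 * cs (m + n + 1) (univ.image (pos k)) := by
  classical
  unfold eig cs
  rw [Finset.sum_image (fun a _ b _ h => (pos_strictAnti k).injective h), Finset.mul_sum]
  rfl

theorem main (m n : ℕ) (hm : 1 ≤ m) (hn : 1 ≤ n) [Fintype (L m n)] [DecidableEq (L m n)]
    [DecidableRel (SimpleGraph.hasse (L m n)).Adj] :
    ((SimpleGraph.hasse (L m n)).adjMatrix ℝ).det ≠ 0 ↔
      Odd m ∧ Odd n ∧ min m n < (m + n + 1).minFac := by
  classical
  rw [det_hasse, Finset.prod_ne_zero_iff, ← cs_main m n hm hn]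
  constructor
  · intro h K hK hc
    obtain ⟨f, hf⟩ := exists_pos_image (m := m) (n := n) K hK hc
    have h1 := h f (Finset.mem_univ f)
    rw [eig_eq, hf] at h1
    intro h2
    exact h1 (by rw [h2, mul_zero])
  · intro h k _
    rw [eig_eq]
    refine mul_ne_zero two_ne_zero (h _ ?_ ?_)
    · intro x hx
      obtain ⟨i, _, rfl⟩ := Finset.mem_image.1 hx
      exact Finset.mem_Icc.2 ⟨pos_pos k i, pos_le k i⟩
    · rw [Finset.card_image_of_injective _ (pos_strictAnti k).injective, Finset.card_univ,
        Fintype.card_fin]

end Pool.Agent.Helper350.HasseBox
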